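import Pool.Agent.R305.MV.F
set_option autoImplicit false
set_option maxHeartbeats 1000000

/-!
Two-sided bounds for zeta in a zero-free window, and the size of zeta to the right of `1`.
-/

open Complex Filter Topology MeasureTheory Set

namespace Pool.Agent.R305.LD

open Pool.Agent.R305.MV

noncomputable section

/-- **The inverse of zeta in a zero-free window.** -/
theorem zeta_both {δ η : ℝ} (hδ : 0 < δ) (hδ1 : δ ≤ 1 / 4) (hη : 0 < η) :
    ∃ T0 : ℝ, 3 ≤ T0 ∧ ∀ T : ℝ, T0 ≤ T → ∀ σ : ℝ, 1 / 2 + δ ≤ σ → σ ≤ 1 → ∀ z : ℂ, σ ≤ z.re →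
      z.re ≤ 2 → 3 ≤ z.im → z.im ≤ T →
      (∀ ρ : ℂ, riemannZeta ρ = 0 → σ - δ < ρ.re → 2 ≤ |ρ.im - z.im|) →
      T ^ (-η) ≤ ‖riemannZeta z‖ ∧ ‖riemannZeta z‖ ≤ T ^ η := by
  obtain ⟨A, hA1, hA⟩ := DH31.zeta_bounds (a := 9 / 8) (by norm_num)
  have hA0 : 0 < A := by linarith
  have hlogA : 0 ≤ Real.log A := Real.log_nonneg hA1
  obtain ⟨K, hK⟩ := exists_pow_lt_of_lt_one (show 0 < η / 4 / (72 / δ ^ 2) by positivity)
    (show 1 - δ / 3 < 1 by linarith)
  have hq0 : 0 ≤ 1 - δ / 3 := by linarith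
  rw [lt_div_iff₀ (by positivity)] at hK
  set m : ℝ := 12 * (2 * Real.log A + 1) with hm
  have hm0 : 0 < m := by positivity
  set C : ℝ := m * (K * 2 ^ K) + 36 / δ ^ 2 * (Real.log A + 1) + Real.log A with hC
  obtain ⟨T1, hT13, hT1⟩ := ev_small (show 0 < η / 4 by positivity) C
  refine ⟨max T1 10, hT13.trans (le_max_left _ _), ?_⟩
  intro T hT σ hσ hσ1 z hz1 hz2 hz3 hzT hfree
  obtain ⟨hL1, hLC, -⟩ := hT1 T ((le_max_left _ _).trans hT)
  have hT10 : 10 ≤ T := (le_max_right _ _).trans hT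
  have hT0 : 0 < T := by linarith
  set L := Real.log T with hL
  set c : ℂ := ⟨2, z.im⟩ with hc
  set R : ℝ := 2 - σ + δ with hR
  have hcre : c.re = 2 := rfl
  have hgood : ∀ w ∈ Metric.ball c R, σ - δ < w.re ∧ |w.im - z.im| < 2 ∧ 1 ≤ w.im := by
    intro w hw
    rw [Metric.mem_ball, dist_eq_norm] at hw
    have h1 := (Complex.abs_re_le_norm (w - c)).trans_lt hw
    have h2 := (Complex.abs_im_le_norm (w - c)).trans_lt hw
    rw [Complex.sub_re] at h1
    rw [Complex.sub_im] at h2
    have h3 : c.im = z.im := rfl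
    rw [hcre] at h1
    rw [h3] at h2
    have h4 := abs_lt.1 h1
    have h5 := abs_lt.1 h2
    exact ⟨by linarith [h4.1], by linarith, by linarith [h5.1]⟩
  have hne : ∀ w ∈ Metric.ball c R, riemannZeta w ≠ 0 := by
    intro w hw h0
    obtain ⟨h1, h2, -⟩ := hgood w hw
    linarith [hfree w h0 h1]
  have han : AnalyticOnNhd ℂ riemannZeta (Metric.ball c R) := fun w hw =>
    DH31.zeta_analyticAt (by linarith [(hgood w hw).2.2])
  have hR1 : 1 ≤ R := by linarith
  have hR2 : R ≤ 3 / 2 := by linarith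
  obtain ⟨h, hhd, hhc, hhe⟩ := DH31.exists_log (by linarith : 0 < R) han hne
  obtain ⟨hc1, hc2⟩ := hA c (by rw [hcre]; norm_num)
  have hcpos : 0 < ‖riemannZeta c‖ := lt_of_lt_of_le (by positivity) hc2
  have hcne : riemannZeta c ≠ 0 := norm_pos_iff.1 hcpos
  have hAc : 1 ≤ A * ‖riemannZeta c‖ := by
    rw [div_le_iff₀ hA0] at hc2
    linarith
  -- first bound
  have hb1 : ∀ w ∈ Metric.closedBall c (3 / 4), ‖h w‖ ≤ m := by
    intro w hw
    refine (DH31.bc_log (g := riemannZeta) (h := h) (c := c) (r := R) (r' := 7 / 8) (r1 := 3 / 4)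
      (B := 2 * Real.log A) (by norm_num) (by norm_num) (by linarith) (by positivity) hcne hhd hhc
      hhe ?_ hw).trans (le_of_eq (by rw [hm]; ring))
    intro v hv
    have h1 := (center_re_im (Metric.ball_subset_closedBall hv)).1
    have h2 := (hA v (by linarith)).1
    have h3 : Real.exp (2 * Real.log A) = A * A := by
      rw [two_mul, Real.exp_add, Real.exp_log hA0]
    rw [h3]
    exact ee1 h2 hAc hA0
  -- second bound
  have hb2 : ∀ w ∈ Metric.closedBall c (R - δ / 2), ‖h w‖ ≤ 12 / δ * (2 * L + Real.log A + 1) := by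
    intro w hw
    have h0 := DH31.bc_log (g := riemannZeta) (h := h) (c := c) (r := R) (r' := R - δ / 4)
      (r1 := R - δ / 2) (B := 2 * L + Real.log A) (by linarith) (by linarith) (by linarith)
      (by positivity) hcne hhd hhc hhe (by
        intro v hv
        obtain ⟨h1, h2, h3⟩ := hgood v (Metric.ball_subset_ball (by linarith) hv)
        obtain ⟨k1, k2, k3⟩ := center_re_im (Metric.ball_subset_closedBall hv)
        have h4 := Pool.Agent.H388LH.zeta_growth (s := v) (by linarith) h3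
        have h5 : ‖v‖ ≤ T + 6 := by
          refine (Complex.norm_le_abs_re_add_abs_im v).trans ?_
          have k4 := (abs_le.1 k3).2
          rw [abs_of_nonneg (by linarith), abs_of_nonneg (by linarith)]
          linarith
        have h6 : Real.exp (2 * L + Real.log A) = T * T * A := by
          rw [two_mul, Real.exp_add, Real.exp_add, Real.exp_log hA0, hL, Real.exp_log hT0]
        rw [h6, mul_assoc]
        have h7 : 6 * (T + 6) ≤ T * T := ee2 hT10
        have h8 : T * T ≤ T * T * (A * ‖riemannZeta c‖) :=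
          le_mul_of_one_le_right (mul_nonneg hT0.le hT0.le) hAc
        linarith) hw
    refine h0.trans ?_
    have h1 : R - δ / 4 - (R - δ / 2) = δ / 4 := by ring
    rw [h1, div_le_iff₀ (by positivity)]
    have h2 : 12 / δ * (2 * L + Real.log A + 1) * (δ / 4) = 3 * (2 * L + Real.log A + 1) := by
      field_simp
      ring
    rw [h2]
    have h3 : 0 ≤ 2 * L + Real.log A + 1 := by positivity
    exact ee3 h3 hR2 hδ
  -- three circles
  have hzc : ‖z - c‖ ≤ R - δ := by
    have h1 : z - c = (((z.re - 2 : ℝ)) : ℂ) := by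
      apply Complex.ext
      · simp [hc]
      · simp [hc]
    rw [h1, Complex.norm_real, Real.norm_eq_abs, abs_of_nonpos (by linarith)]
    linarith
  have key := DH31.circle_bound (f := h) (c := c) (z := z) (r := R - δ) (s0 := 3 / 4)
    (s := R - δ / 2) (R := R) (m := m) (M := 12 / δ * (2 * L + Real.log A + 1)) (by norm_num)
    (by linarith) (by linarith) (by linarith) (by linarith) (by linarith) hhd
    (fun w hw => hb1 w (Metric.sphere_subset_closedBall hw))
    (fun w hw => hb2 w (Metric.sphere_subset_closedBall hw)) hzc K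
  have hs0 : 0 < R - δ / 2 := by linarith
  have h1 : δ / 3 ≤ 1 - (R - δ) / (R - δ / 2) := by
    rw [le_sub_iff_add_le, ← le_sub_iff_add_le', div_le_iff₀ hs0]
    exact ee4 hR2 hδ
  have h2 : ((R - δ) / (R - δ / 2)) ^ K ≤ (1 - δ / 3) ^ K :=
    pow_le_pow_left₀ (div_nonneg (by linarith) hs0.le) (by linarith) K
  have ht1 : m * ∑ n ∈ Finset.range K, ((R - δ) / (3 / 4)) ^ n ≤ m * (K * 2 ^ K) := by
    apply mul_le_mul_of_nonneg_left _ hm0.le
    calc _ ≤ ∑ n ∈ Finset.range K, (2 : ℝ) ^ K := by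
          refine Finset.sum_le_sum fun n hn => ?_
          rw [Finset.mem_range] at hn
          calc ((R - δ) / (3 / 4)) ^ n ≤ 2 ^ n :=
                pow_le_pow_left₀ (div_nonneg (by linarith) (by norm_num))
                  (by rw [div_le_iff₀ (by norm_num)]; linarith) n
            _ ≤ 2 ^ K := pow_le_pow_right₀ (by norm_num) hn.le
      _ = _ := by rw [Finset.sum_const, Finset.card_range, nsmul_eq_mul]
  have ht2 : 12 / δ * (2 * L + Real.log A + 1) * ((R - δ) / (R - δ / 2)) ^ K /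
      (1 - (R - δ) / (R - δ / 2)) ≤ η / 4 * L + 36 / δ ^ 2 * (Real.log A + 1) := by
    have h3 : 0 ≤ 2 * L + Real.log A + 1 := by positivity
    have hpk : 0 ≤ (1 - δ / 3) ^ K := by positivity
    have hpk1 : (1 - δ / 3) ^ K ≤ 1 := pow_le_one₀ hq0 (by linarith)
    rw [div_le_iff₀ (by linarith)]
    calc 12 / δ * (2 * L + Real.log A + 1) * ((R - δ) / (R - δ / 2)) ^ K
        ≤ 12 / δ * (2 * L + Real.log A + 1) * (1 - δ / 3) ^ K := by gcongr
      _ = ((1 - δ / 3) ^ K * (72 / δ ^ 2) * L + (1 - δ / 3) ^ K * (36 / δ ^ 2 * (Real.log A + 1))) *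
          (δ / 3) := by field_simp; ring
      _ ≤ (η / 4 * L + 1 * (36 / δ ^ 2 * (Real.log A + 1))) * (δ / 3) := by gcongr
      _ ≤ _ := by
          rw [one_mul]
          exact mul_le_mul_of_nonneg_left h1 (by positivity)
  have hfin : ‖h z‖ ≤ η / 4 * L + (C - Real.log A) := by
    rw [hC]
    linarith
  have hzb : z ∈ Metric.ball c R := by
    rw [Metric.mem_ball, dist_eq_norm]
    linarith
  have h4 : ‖riemannZeta z‖ = ‖riemannZeta c‖ * Real.exp (h z).re := by
    rw [hhe z hzb, norm_mul, Complex.norm_exp]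
  have h5 : Real.exp (-Real.log A) ≤ ‖riemannZeta c‖ := by
    rw [Real.exp_neg, Real.exp_log hA0, ← one_div]
    exact hc2
  have h5' : ‖riemannZeta c‖ ≤ Real.exp (Real.log A) := by
    rw [Real.exp_log hA0]
    exact hc1
  have h6 := abs_le.1 (Complex.abs_re_le_norm (h z))
  have h7 : 0 ≤ η * L := by positivity
  rw [h4, Real.rpow_def_of_pos hT0, Real.rpow_def_of_pos hT0, ← hL]
  constructor
  · calc Real.exp (L * -η) ≤ Real.exp (-Real.log A + (h z).re) := by
          apply Real.exp_le_exp.2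
          linarith [h6.1]
      _ = Real.exp (-Real.log A) * Real.exp (h z).re := Real.exp_add _ _
      _ ≤ _ := mul_le_mul_of_nonneg_right h5 (Real.exp_pos _).le
  · calc _ ≤ Real.exp (Real.log A) * Real.exp (h z).re :=
          mul_le_mul_of_nonneg_right h5' (Real.exp_pos _).le
      _ = Real.exp (Real.log A + (h z).re) := (Real.exp_add _ _).symm
      _ ≤ _ := by
          apply Real.exp_le_exp.2
          linarith [h6.2]

/-- the size of zeta to the right of `1` -/
theorem growth_one {κ : ℝ} (hκ : 0 < κ) (hκ1 : κ ≤ 1) :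
    ∃ T0 : ℝ, 3 ≤ T0 ∧ ∀ T : ℝ, T0 ≤ T → ∀ s : ℂ, 1 ≤ s.re → 3 ≤ s.im → s.im ≤ T →
      ‖riemannZeta s‖ ≤ T ^ κ := by
  set κ' : ℝ := κ / 48 with hκ'
  obtain ⟨A, hA1, hA⟩ := DH31.zeta_bounds (a := 1 + κ') (by linarith)
  have hA0 : 0 < A := by linarith
  obtain ⟨K0, hK0, hab⟩ := absorb (show 0 < κ / 4 by positivity)
  obtain ⟨T1, hT13, hT1⟩ := ev_small (show 0 < κ / 4 by positivity) (1 + Real.log (6 * A * K0 * 2 + 19))
  refine ⟨max T1 10, hT13.trans (le_max_left _ _), ?_⟩
  intro T hT s hs1 hs3 hsT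
  obtain ⟨hL1, hLC, -⟩ := hT1 T ((le_max_left _ _).trans hT)
  have hT10 : 10 ≤ T := (le_max_right _ _).trans hT
  have hT0 : 0 < T := by linarith
  set L := Real.log T with hL
  have hbig : 0 < 6 * A * K0 * 2 + 19 := by positivity
  have hBT : 6 * A * K0 * 2 + 19 ≤ T ^ (κ / 4) := by
    rw [Real.rpow_def_of_pos hT0, ← hL, ← Real.exp_log hbig]
    apply Real.exp_le_exp.2
    linarith
  have hmono : ∀ x y : ℝ, x ≤ y → T ^ x ≤ T ^ y := fun x y h =>
    Real.rpow_le_rpow_of_exponent_le (by linarith) h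
  rcases le_or_gt (1 + κ') s.re with h1 | h1
  · have h2 := (hA s h1).1
    have h3 : A ≤ 6 * A * K0 * 2 + 19 := by nlinarith
    exact h2.trans (h3.trans (hBT.trans (hmono _ _ (by linarith))))
  · set c : ℂ := ⟨2, s.im⟩ with hc
    set l : ℝ := Real.log (T + 6) with hl
    have hl0 : 0 ≤ l := Real.log_nonneg (by linarith)
    have hl2 : l ≤ 2 * L := by
      have : Real.log (T ^ 2) = 2 * L := by
        rw [Real.log_pow, hL]
        push_cast
        ring
      rw [← this]
      exact Real.log_le_log (by linarith) (by nlinarith)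
    set K : ℕ := ⌈3 * l⌉₊ with hK
    have hK1 : 3 * l ≤ K := Nat.le_ceil _
    have hK2 : (K : ℝ) < 3 * l + 1 := Nat.ceil_lt_add_one (by positivity)
    have hzc : ‖s - c‖ ≤ 1 := by
      have h1 : s - c = (((s.re - 2 : ℝ)) : ℂ) := by
        apply Complex.ext
        · simp [hc]
        · simp [hc]
      rw [h1, Complex.norm_real, Real.norm_eq_abs, abs_of_nonpos (by linarith)]
      linarith
    have hd : DifferentiableOn ℂ riemannZeta (Metric.ball c (7 / 4)) := by
      intro w hw
      have h2 := center_re_im (Metric.ball_subset_closedBall hw)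
      have h3 := (abs_le.1 h2.2.2).1
      refine (DH31.zeta_analyticAt (by linarith)).differentiableAt.differentiableWithinAt
    have key := DH31.circle_bound (f := riemannZeta) (c := c) (z := s) (r := 1) (s0 := 1 - κ')
      (s := 3 / 2) (R := 7 / 4) (m := A) (M := 6 * (T + 6)) (by linarith)
      (by norm_num) (by norm_num) (by norm_num) (by norm_num) (by linarith) hd
      (fun w hw => by
        have h2 := center_re_im (Metric.sphere_subset_closedBall hw)
        exact (hA w (by linarith)).1)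
      (fun w hw => by
        have h2 := center_re_im (Metric.sphere_subset_closedBall hw)
        have h3 := abs_le.1 h2.2.2
        have h4 := Pool.Agent.H388LH.zeta_growth (s := w) (by linarith) (by linarith)
        have h5 : ‖w‖ ≤ T + 6 := by
          refine (Complex.norm_le_abs_re_add_abs_im w).trans ?_
          rw [abs_of_nonneg (by linarith), abs_of_nonneg (by linarith)]
          linarith
        linarith) hzc K
    have e1 : ((1 : ℝ) / (3 / 2)) ^ K ≤ 1 / (T + 6) := by
      have h2 : (1 : ℝ) / (3 / 2) ≤ Real.exp (-(1 / 3)) := by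
        have := Real.add_one_le_exp (-(1 / 3) : ℝ)
        linarith
      calc ((1 : ℝ) / (3 / 2)) ^ K ≤ (Real.exp (-(1 / 3))) ^ K := by gcongr
        _ = Real.exp (-(K / 3)) := by rw [← Real.exp_nat_mul]; congr 1; ring
        _ ≤ Real.exp (-l) := Real.exp_le_exp.2 (by linarith)
        _ = _ := by rw [Real.exp_neg, hl, Real.exp_log (by linarith), one_div]
    have e2 : 6 * (T + 6) * ((1 : ℝ) / (3 / 2)) ^ K / (1 - 1 / (3 / 2)) ≤ 18 := by
      have h2 : 6 * (T + 6) * ((1 : ℝ) / (3 / 2)) ^ K ≤ 6 * (T + 6) * (1 / (T + 6)) := by gcongr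
      have h3 : 6 * (T + 6) * (1 / (T + 6)) = 6 := by field_simp
      rw [div_le_iff₀ (by norm_num)]
      linarith
    have q1 : 1 / (1 - κ') ≤ Real.exp (2 * κ') := by
      rw [div_le_iff₀ (by linarith)]
      have := Real.add_one_le_exp (2 * κ')
      nlinarith
    have q0 : 1 ≤ 1 / (1 - κ') := by
      rw [le_div_iff₀ (by linarith)]
      linarith
    have e3 : ∑ n ∈ Finset.range K, (1 / (1 - κ')) ^ n ≤ K * (1 / (1 - κ')) ^ K := by
      calc _ ≤ ∑ n ∈ Finset.range K, (1 / (1 - κ')) ^ K := by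
            refine Finset.sum_le_sum fun n hn => ?_
            rw [Finset.mem_range] at hn
            exact pow_le_pow_right₀ q0 hn.le
        _ = _ := by rw [Finset.sum_const, Finset.card_range, nsmul_eq_mul]
    have e4 : (1 / (1 - κ')) ^ K ≤ T ^ (κ / 2) := by
      calc (1 / (1 - κ')) ^ K ≤ (Real.exp (2 * κ')) ^ K := by gcongr
        _ = Real.exp (K * (2 * κ')) := by rw [← Real.exp_nat_mul]
        _ ≤ Real.exp (L * (κ / 2)) := by
            apply Real.exp_le_exp.2
            rw [hκ']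
            nlinarith
        _ = _ := by rw [Real.rpow_def_of_pos hT0]
    have e5 : (K : ℝ) ≤ 6 * K0 * T ^ (κ / 4) := by
      have := hab T (by linarith)
      linarith
    have hP4 : 0 < T ^ (κ / 4) := by positivity
    have hP2 : 0 < T ^ (κ / 2) := by positivity
    have e6 : A * ∑ n ∈ Finset.range K, (1 / (1 - κ')) ^ n ≤ 6 * A * K0 * T ^ (κ / 4) * T ^ (κ / 2) := by
      calc _ ≤ A * (K * (1 / (1 - κ')) ^ K) := by gcongr
        _ ≤ A * ((6 * K0 * T ^ (κ / 4)) * T ^ (κ / 2)) := by gcongr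
        _ = _ := by ring
    have e7 : (1 : ℝ) ≤ T ^ (κ / 4) * T ^ (κ / 2) := by
      rw [← Real.rpow_add hT0]
      exact Real.one_le_rpow (by linarith) (by positivity)
    have e8 : T ^ κ = T ^ (κ / 4) * (T ^ (κ / 4) * T ^ (κ / 2)) := by
      rw [← Real.rpow_add hT0, ← Real.rpow_add hT0]
      congr 1
      ring
    refine key.trans ?_
    rw [e8]
    calc _ ≤ 6 * A * K0 * T ^ (κ / 4) * T ^ (κ / 2) + 18 := add_le_add e6 e2
      _ ≤ (6 * A * K0 * 2 + 19) * (T ^ (κ / 4) * T ^ (κ / 2)) := by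
          have : 0 ≤ 6 * A * K0 := by positivity
          nlinarith
      _ ≤ _ := mul_le_mul_of_nonneg_right hBT (by positivity)

end

end Pool.Agent.R305.LD
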