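import Pool.Agent.R305.LD.A
import Pool.Agent.H402R2.SubMean
set_option autoImplicit false
set_option maxHeartbeats 1000000

/-!
Near a zero of zeta the set of large deviations of `log |zeta|` is large.
-/

open Complex Filter Topology MeasureTheory Set

namespace Pool.Agent.R305.LD

open Pool.Agent.R305.MV

noncomputable section

/-- the points of large deviation -/
def E (ε T : ℝ) : Set ℂ := {s : ℂ | ¬ (T ^ (-ε) ≤ ‖riemannZeta s‖ ∧ ‖riemannZeta s‖ ≤ T ^ ε)}

lemma measurable_zeta : Measurable riemannZeta := by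
  refine measurable_of_continuousOn_compl_singleton 1 ?_
  intro s hs
  exact (differentiableAt_riemannZeta hs).continuousAt.continuousWithinAt

lemma measurableSet_E (ε T : ℝ) : MeasurableSet (E ε T) := by
  unfold E
  have h1 := measurable_zeta.norm
  exact ((measurableSet_le measurable_const h1).inter (measurableSet_le h1 measurable_const)).compl

/-- volume of balls -/
lemma vol_ball (c : ℂ) {r : ℝ} (hr : 0 ≤ r) : volume (Metric.ball c r) = ENNReal.ofReal (Real.pi * r ^ 2) := by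
  rw [Complex.volume_ball, ← ENNReal.ofReal_pow hr, mul_comm, ENNReal.ofReal_mul Real.pi_pos.le]
  congr 1
  rw [← NNReal.coe_real_pi, ENNReal.ofReal_coe_nnreal]

/-- case B: a large value near the zero -/
lemma case_b {ε r T : ℝ} (hε : 0 < ε) (hr : 0 < r) (hr1 : r ≤ 1 / 16) (hT : 3 ≤ T)
    (h2 : 2 ≤ T ^ (ε * ε)) (hT6 : 6 * (T + 6) ≤ T ^ (2 : ℝ)) {s1 : ℂ} (h12 : 3 / 8 ≤ s1.re) (hs2 : s1.re ≤ 2)
    (him : 3 ≤ s1.im) (himT : s1.im ≤ T) (hs : T ^ (2 * ε) < ‖riemannZeta s1‖) :
    ENNReal.ofReal (r ^ 2 * T ^ (-(2 * ε))) ≤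
      volume (Metric.ball s1 r ∩ {s : ℂ | T ^ ε < ‖riemannZeta s‖}) := by
  have hT0 : 0 < T := by linarith
  have hreg : ∀ w ∈ Metric.ball s1 r, 1 / 4 ≤ w.re ∧ w.re ≤ 3 ∧ 1 ≤ w.im ∧ w.im ≤ T + 1 := by
    intro w hw
    rw [Metric.mem_ball, dist_eq_norm] at hw
    have h1 := abs_lt.1 ((Complex.abs_re_le_norm (w - s1)).trans_lt hw)
    have h2 := abs_lt.1 ((Complex.abs_im_le_norm (w - s1)).trans_lt hw)
    rw [Complex.sub_re] at h1
    rw [Complex.sub_im] at h2
    exact ⟨by linarith [h1.1], by linarith [h1.2], by linarith [h2.1], by linarith [h2.2]⟩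
  have hd : DifferentiableOn ℂ riemannZeta (Metric.ball s1 r) := fun w hw =>
    (DH31.zeta_analyticAt (by linarith [(hreg w hw).2.2.1])).differentiableAt.differentiableWithinAt
  have key := Pool.Agent.H402R2.SubMean.rpow_mul_le_lintegral hr hε hd
  set F : Set ℂ := {s : ℂ | T ^ ε < ‖riemannZeta s‖} with hF
  have hFm : MeasurableSet F := measurableSet_lt measurable_const measurable_zeta.norm
  have hup : ∀ w ∈ Metric.ball s1 r, ‖riemannZeta w‖ₑ ^ ε ≤
      ENNReal.ofReal (T ^ (ε * ε)) + F.indicator (fun _ => ENNReal.ofReal (T ^ (2 * ε))) w := by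
    intro w hw
    obtain ⟨g1, g2, g3, g4⟩ := hreg w hw
    rw [← ofReal_norm, ENNReal.ofReal_rpow_of_nonneg (norm_nonneg _) hε.le]
    by_cases hwF : w ∈ F
    · rw [Set.indicator_of_mem hwF]
      refine le_trans ?_ le_add_self
      apply ENNReal.ofReal_le_ofReal
      have h4 := Pool.Agent.H388LH.zeta_growth (s := w) g1 g3
      have h5 : ‖w‖ ≤ T + 6 := by
        refine (Complex.norm_le_abs_re_add_abs_im w).trans ?_
        rw [abs_of_nonneg (by linarith), abs_of_nonneg (by linarith)]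
        linarith
      rw [Real.rpow_mul hT0.le]
      exact Real.rpow_le_rpow (norm_nonneg _) (by linarith) hε.le
    · rw [Set.indicator_of_notMem hwF, add_zero]
      apply ENNReal.ofReal_le_ofReal
      rw [Real.rpow_mul hT0.le]
      apply Real.rpow_le_rpow (norm_nonneg _) _ hε.le
      exact not_lt.1 hwF
  have hint : ∫⁻ z in Metric.ball s1 r, ‖riemannZeta z‖ₑ ^ ε ≤
      ENNReal.ofReal (T ^ (ε * ε)) * ENNReal.ofReal (Real.pi * r ^ 2) +
        ENNReal.ofReal (T ^ (2 * ε)) * volume (Metric.ball s1 r ∩ F) := by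
    calc _ ≤ ∫⁻ w in Metric.ball s1 r, (ENNReal.ofReal (T ^ (ε * ε)) +
          F.indicator (fun _ => ENNReal.ofReal (T ^ (2 * ε))) w) :=
          setLIntegral_mono' measurableSet_ball hup
      _ = _ := by
          rw [lintegral_add_left measurable_const, lintegral_const, Measure.restrict_apply_univ,
            vol_ball _ hr.le, lintegral_indicator hFm, lintegral_const, Measure.restrict_apply_univ,
            Measure.restrict_apply hFm, Set.inter_comm]
  have hlow : ENNReal.ofReal (2 * T ^ (ε * ε) * (Real.pi * r ^ 2)) ≤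
      ENNReal.ofReal (‖riemannZeta s1‖ ^ ε * (Real.pi * r ^ 2)) := by
    apply ENNReal.ofReal_le_ofReal
    have h5 : T ^ (2 * ε * ε) ≤ ‖riemannZeta s1‖ ^ ε := by
      rw [Real.rpow_mul hT0.le]
      exact Real.rpow_le_rpow (by positivity) hs.le hε.le
    have h6 : T ^ (2 * ε * ε) = T ^ (ε * ε) * T ^ (ε * ε) := by
      rw [← Real.rpow_add hT0]
      congr 1
      ring
    have h7 : 0 < T ^ (ε * ε) := by positivity
    apply mul_le_mul_of_nonneg_right _ (by positivity)
    nlinarith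
  have hfin := hlow.trans (key.trans hint)
  set V := volume (Metric.ball s1 r ∩ F) with hV
  have hVt : V ≠ ⊤ := by
    have : V ≤ volume (Metric.ball s1 r) := measure_mono Set.inter_subset_left
    rw [vol_ball _ hr.le] at this
    exact ne_top_of_le_ne_top ENNReal.ofReal_ne_top this
  have hVe : V = ENNReal.ofReal V.toReal := (ENNReal.ofReal_toReal hVt).symm
  have hv0 : 0 ≤ V.toReal := ENNReal.toReal_nonneg
  rw [hVe, ← ENNReal.ofReal_mul (by positivity), ← ENNReal.ofReal_mul (by positivity),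
    ← ENNReal.ofReal_add (by positivity) (by positivity),
    ENNReal.ofReal_le_ofReal_iff (by positivity)] at hfin
  rw [hVe]
  apply ENNReal.ofReal_le_ofReal
  have hP : 0 < T ^ (2 * ε) := by positivity
  have hneg : T ^ (-(2 * ε)) = 1 / T ^ (2 * ε) := by
    rw [Real.rpow_neg hT0.le, one_div]
  rw [hneg, mul_one_div, div_le_iff₀ hP]
  have hpi := Real.pi_gt_three
  have h8 : 0 < r ^ 2 := by positivity
  have h9 : T ^ (ε * ε) * (Real.pi * r ^ 2) ≤ T ^ (2 * ε) * V.toReal := by linarith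
  have h10 : r ^ 2 ≤ T ^ (ε * ε) * (Real.pi * r ^ 2) := by
    have h11 : r ^ 2 ≤ Real.pi * r ^ 2 := by nlinarith
    exact h11.trans (le_mul_of_one_le_left (by positivity) (by linarith))
  linarith

/-- case A: no large value near the zero -/
lemma case_a {ε r T : ℝ} (hε : 0 < ε) (hr : 0 < r) (hr1 : r ≤ 1 / 16) (hT : 3 ≤ T) {ρ : ℂ}
    (hρ : riemannZeta ρ = 0) (him : 4 ≤ ρ.im)
    (h : ∀ s ∈ Metric.ball ρ r, ‖riemannZeta s‖ ≤ T ^ (2 * ε)) :
    ∀ s ∈ Metric.ball ρ (r / 2 * T ^ (-(3 * ε))), ‖riemannZeta s‖ < T ^ (-ε) := by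
  have hT0 : 0 < T := by linarith
  intro s hs
  have hP : 0 < T ^ (2 * ε) := by positivity
  have hQ : T ^ (-(3 * ε)) ≤ 1 := Real.rpow_le_one_of_one_le_of_nonpos (by linarith) (by linarith)
  have hd : DifferentiableOn ℂ riemannZeta (Metric.ball ρ r) := by
    intro w hw
    rw [Metric.mem_ball, dist_eq_norm] at hw
    have h2 := abs_lt.1 ((Complex.abs_im_le_norm (w - ρ)).trans_lt hw)
    rw [Complex.sub_im] at h2
    exact (DH31.zeta_analyticAt (by linarith [h2.1])).differentiableAt.differentiableWithinAt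
  have hs' : s ∈ Metric.ball ρ r := by
    refine Metric.ball_subset_ball ?_ hs
    nlinarith
  have key := Complex.dist_le_div_mul_dist_of_mapsTo_ball (R₂ := 2 * T ^ (2 * ε)) hd (by
    intro w hw
    rw [hρ, Metric.mem_closedBall, dist_zero_right]
    have := h w hw
    linarith) hs'
  rw [hρ, dist_zero_right] at key
  rw [Metric.mem_ball] at hs
  refine key.trans_lt ?_
  have h1 : 2 * T ^ (2 * ε) / r * dist s ρ < 2 * T ^ (2 * ε) / r * (r / 2 * T ^ (-(3 * ε))) :=
    mul_lt_mul_of_pos_left hs (by positivity)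
  refine h1.trans_le (le_of_eq ?_)
  have h2 : T ^ (-ε) = T ^ (2 * ε) * T ^ (-(3 * ε)) := by
    rw [← Real.rpow_add hT0]
    congr 1
    ring
  rw [h2]
  field_simp

/-- **Near a zero the set of large deviations is large.** -/
theorem near_zero {ε r : ℝ} (hε : 0 < ε) (hε1 : ε ≤ 1) (hr : 0 < r) (hr1 : r ≤ 1 / 16) :
    ∃ T0 : ℝ, 3 ≤ T0 ∧ ∀ T : ℝ, T0 ≤ T → ∀ ρ : ℂ, riemannZeta ρ = 0 → 1 / 2 ≤ ρ.re → 4 ≤ ρ.im →
      ρ.im ≤ T - 1 → ENNReal.ofReal (r ^ 2 / 8 * T ^ (-(6 * ε))) ≤
        volume (Metric.ball ρ (2 * r) ∩ E ε T ∩ {s : ℂ | s.re ≤ 1}) := by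
  obtain ⟨T1, hT13, h1⟩ := growth_one hε hε1
  obtain ⟨T2, -, h2⟩ := ev_small (show 0 < ε * ε by positivity) (Real.log 2)
  refine ⟨max (max T1 T2) 10, hT13.trans ((le_max_left _ _).trans (le_max_left _ _)), ?_⟩
  intro T hT ρ hρ hρ1 him himT
  have hTT1 : T1 ≤ T := ((le_max_left _ _).trans (le_max_left _ _)).trans hT
  have hTT2 : T2 ≤ T := ((le_max_right _ _).trans (le_max_left _ _)).trans hT
  have hT10 : 10 ≤ T := (le_max_right _ _).trans hT
  have hT0 : 0 < T := by linarith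
  have hρlt : ρ.re < 1 := by
    by_contra hcon
    exact riemannZeta_ne_zero_of_one_le_re (not_lt.1 hcon) hρ
  have hneg6 : T ^ (-(6 * ε)) ≤ T ^ (-(2 * ε)) :=
    Real.rpow_le_rpow_of_exponent_le (by linarith) (by linarith)
  have hp6 : 0 < T ^ (-(6 * ε)) := by positivity
  by_cases hA : ∀ s ∈ Metric.ball ρ r, ‖riemannZeta s‖ ≤ T ^ (2 * ε)
  · have hca := case_a hε hr hr1 (by linarith) hρ him hA
    set r' : ℝ := r / 2 * T ^ (-(3 * ε)) with hr'
    have hr'0 : 0 < r' := by positivity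
    have hr'r : r' ≤ r := by
      have hQ : T ^ (-(3 * ε)) ≤ 1 :=
        Real.rpow_le_one_of_one_le_of_nonpos (by linarith) (by linarith)
      nlinarith
    have hsub : Metric.ball (ρ - (r' / 2 : ℝ)) (r' / 2) ⊆
        Metric.ball ρ (2 * r) ∩ E ε T ∩ {s : ℂ | s.re ≤ 1} := by
      intro s hs
      have hs1 : dist s ρ < r' := by
        rw [Metric.mem_ball] at hs
        calc dist s ρ ≤ dist s (ρ - (r' / 2 : ℝ)) + dist (ρ - (r' / 2 : ℝ)) ρ := dist_triangle _ _ _
          _ < r' / 2 + r' / 2 := by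
              have : dist (ρ - (r' / 2 : ℝ)) ρ = r' / 2 := by
                rw [dist_eq_norm, sub_sub_cancel_left, norm_neg, Complex.norm_real,
                  Real.norm_of_nonneg (by linarith)]
              linarith
          _ = r' := by ring
      have hs2 : s.re ≤ 1 := by
        rw [Metric.mem_ball, dist_eq_norm] at hs
        have h3 := (abs_lt.1 ((Complex.abs_re_le_norm _).trans_lt hs)).2
        rw [Complex.sub_re, Complex.sub_re, Complex.ofReal_re] at h3
        linarith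
      refine ⟨⟨?_, ?_⟩, hs2⟩
      · rw [Metric.mem_ball]
        linarith
      · have h3 := hca s (by rw [Metric.mem_ball]; exact hs1)
        show ¬ (T ^ (-ε) ≤ ‖riemannZeta s‖ ∧ ‖riemannZeta s‖ ≤ T ^ ε)
        exact fun h4 => absurd h4.1 (not_le.2 h3)
    refine le_trans ?_ (measure_mono hsub)
    rw [vol_ball _ (by linarith)]
    apply ENNReal.ofReal_le_ofReal
    have h3 : T ^ (-(6 * ε)) = T ^ (-(3 * ε)) * T ^ (-(3 * ε)) := by
      rw [← Real.rpow_add hT0]
      congr 1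
      ring
    have h4 : Real.pi * (r' / 2) ^ 2 = Real.pi * (r ^ 2 / 16 * T ^ (-(6 * ε))) := by
      rw [h3, hr']
      ring
    rw [h4]
    have hpi := Real.pi_gt_three
    have h5 : 0 < r ^ 2 / 16 * T ^ (-(6 * ε)) := by positivity
    nlinarith
  · push Not at hA
    obtain ⟨s1, hs1, hbig⟩ := hA
    have hs1' := hs1
    rw [Metric.mem_ball, dist_eq_norm] at hs1
    have g1 := abs_lt.1 ((Complex.abs_re_le_norm (s1 - ρ)).trans_lt hs1)
    have g2 := abs_lt.1 ((Complex.abs_im_le_norm (s1 - ρ)).trans_lt hs1)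
    rw [Complex.sub_re] at g1
    rw [Complex.sub_im] at g2
    obtain ⟨k1, k2, -⟩ := h2 T hTT2
    have h22 : 2 ≤ T ^ (ε * ε) := by
      rw [Real.rpow_def_of_pos hT0, ← Real.exp_log (show (0:ℝ) < 2 by norm_num)]
      apply Real.exp_le_exp.2
      linarith
    have hT6 : 6 * (T + 6) ≤ T ^ (2 : ℝ) := by
      rw [Real.rpow_two]
      nlinarith
    have hb := case_b hε hr hr1 (by linarith) h22 hT6 (s1 := s1) (by linarith [g1.1])
      (by linarith [g1.2]) (by linarith [g2.1]) (by linarith [g2.2]) hbig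
    have hsub : Metric.ball s1 r ∩ {s : ℂ | T ^ ε < ‖riemannZeta s‖} ⊆
        Metric.ball ρ (2 * r) ∩ E ε T ∩ {s : ℂ | s.re ≤ 1} := by
      rintro s ⟨hs, hsb⟩
      have hs3 : T ^ ε < ‖riemannZeta s‖ := hsb
      have hs4 : dist s ρ < 2 * r := by
        rw [Metric.mem_ball] at hs hs1'
        calc dist s ρ ≤ dist s s1 + dist s1 ρ := dist_triangle _ _ _
          _ < 2 * r := by linarith
      refine ⟨⟨by rw [Metric.mem_ball]; exact hs4, ?_⟩, ?_⟩
      · show ¬ (T ^ (-ε) ≤ ‖riemannZeta s‖ ∧ ‖riemannZeta s‖ ≤ T ^ ε)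
        exact fun h4 => absurd h4.2 (not_le.2 hs3)
      · show s.re ≤ 1
        by_contra hcon
        rw [dist_eq_norm] at hs4
        have g3 := abs_lt.1 ((Complex.abs_im_le_norm (s - ρ)).trans_lt hs4)
        rw [Complex.sub_im] at g3
        have h5 := h1 T hTT1 s (not_le.1 hcon).le (by linarith [g3.1]) (by linarith [g3.2])
        linarith
    refine le_trans ?_ (hb.trans (measure_mono hsub))
    apply ENNReal.ofReal_le_ofReal
    have h5 : 0 < r ^ 2 := by positivity
    calc r ^ 2 / 8 * T ^ (-(6 * ε)) ≤ r ^ 2 * T ^ (-(6 * ε)) := by nlinarith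
      _ ≤ _ := mul_le_mul_of_nonneg_left hneg6 h5.le

end

end Pool.Agent.R305.LD
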