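import Pool.Agent.R305.LD.B
set_option autoImplicit false
set_option maxHeartbeats 1000000

/-!
Zero-density estimates and large deviations of `log |zeta|`.
-/

open Complex Filter Topology MeasureTheory Set

namespace Pool.Agent.R305.LD

open Pool.Agent.R305.MV

noncomputable section

/-- the heights of large deviation on the line `σ` -/
def dev (ε σ T : ℝ) : Set ℝ := {t : ℝ | (0 ≤ t ∧ t ≤ T) ∧ (⟨σ, t⟩ : ℂ) ∈ E ε T}

/-- the large deviation estimate with exponent `a` -/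
def LDev (a : ℝ → ℝ) : Prop := ∀ ε : ℝ, 0 < ε → ∃ C T₀ : ℝ, ∀ T : ℝ, T₀ ≤ T → ∀ σ : ℝ,
  1 / 2 ≤ σ → σ ≤ 1 → (volume (dev ε σ T)).toReal ≤ C * T ^ (a σ + ε)

/-- the points of large deviation in the strip -/
def area (ε σ T : ℝ) : Set ℂ := {s : ℂ | (σ ≤ s.re ∧ s.re ≤ 1) ∧ (0 ≤ s.im ∧ s.im ≤ T) ∧ s ∈ E ε T}

/-- the estimate for the area with exponent `a` -/
def LArea (a : ℝ → ℝ) : Prop := ∀ ε : ℝ, 0 < ε → ∃ C T₀ : ℝ, ∀ T : ℝ, T₀ ≤ T → ∀ σ : ℝ,
  1 / 2 ≤ σ → σ ≤ 1 → (volume (area ε σ T)).toReal ≤ C * T ^ (a σ + ε)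

lemma dev_subset (ε σ T : ℝ) : dev ε σ T ⊆ Icc 0 T := fun _ ht => ht.1

lemma dev_le (ε σ : ℝ) {T : ℝ} (hT : 0 ≤ T) : (volume (dev ε σ T)).toReal ≤ T := by
  have h := measure_mono (μ := volume) (dev_subset ε σ T)
  rw [Real.volume_Icc, sub_zero] at h
  exact ENNReal.toReal_le_of_le_ofReal hT h

lemma dev_lt_top (ε σ T : ℝ) : volume (dev ε σ T) < ⊤ :=
  lt_of_le_of_lt (measure_mono (dev_subset ε σ T)) (by rw [Real.volume_Icc]; exact ENNReal.ofReal_lt_top)

/-- the set in the plane -/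
def pl (ε σ T : ℝ) : Set (ℝ × ℝ) :=
  {v : ℝ × ℝ | (σ ≤ v.1 ∧ v.1 ≤ 1) ∧ (0 ≤ v.2 ∧ v.2 ≤ T) ∧ Complex.measurableEquivRealProd.symm v ∈ E ε T}

lemma measurableSet_pl (ε σ T : ℝ) : MeasurableSet (pl ε σ T) := by
  have h1 : pl ε σ T = (Icc σ 1 ×ˢ Icc 0 T) ∩ (Complex.measurableEquivRealProd.symm ⁻¹' E ε T) := by
    ext v
    constructor
    · rintro ⟨h1, h2, h3⟩
      exact ⟨⟨h1, h2⟩, h3⟩
    · rintro ⟨⟨h1, h2⟩, h3⟩
      exact ⟨h1, h2, h3⟩
  rw [h1]
  exact (measurableSet_Icc.prod measurableSet_Icc).inter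
    (Complex.measurableEquivRealProd.symm.measurable (measurableSet_E ε T))

lemma area_eq (ε σ T : ℝ) : volume (area ε σ T) = volume (pl ε σ T) := by
  rw [← Complex.volume_preserving_equiv_real_prod.measure_preimage
    (measurableSet_pl ε σ T).nullMeasurableSet]
  congr 1

lemma area_le (ε σ T : ℝ) : volume (area ε σ T) = ∫⁻ x in Icc σ 1, volume (dev ε x T) := by
  rw [area_eq, Measure.volume_eq_prod, Measure.prod_apply (measurableSet_pl ε σ T),
    ← lintegral_indicator measurableSet_Icc]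
  refine lintegral_congr fun x => ?_
  by_cases hx : x ∈ Icc σ 1
  · rw [Set.indicator_of_mem hx]
    congr 1
    ext t
    constructor
    · rintro ⟨_, h2, h3⟩
      exact ⟨h2, h3⟩
    · rintro ⟨h2, h3⟩
      exact ⟨hx, h2, h3⟩
  · rw [Set.indicator_of_notMem hx]
    have : Prod.mk x ⁻¹' pl ε σ T = ∅ := by
      ext t
      constructor
      · rintro ⟨h1, _⟩
        exact absurd h1 hx
      · rintro ⟨⟩
    rw [this, measure_empty]

theorem dens_to_dev (a : ℝ → ℝ) (ha : ContinuousOn a (Icc (1 / 2) 1)) (ha1 : 1 ≤ a (1 / 2))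
    (ha0 : ∀ σ ∈ Icc (1 / 2 : ℝ) 1, 0 ≤ a σ) (h : Dens a) : LDev a := by
  intro ε hε
  have huc := isCompact_Icc.uniformContinuousOn_of_continuous ha
  rw [Metric.uniformContinuousOn_iff] at huc
  obtain ⟨δ0, hδ0, hδ2⟩ := huc (ε / 8) (by linarith)
  obtain ⟨M, hM⟩ := isCompact_Icc.exists_bound_of_continuousOn ha
  have hM' : ∀ σ ∈ Icc (1 / 2 : ℝ) 1, a σ ≤ M := fun σ hσ => (le_abs_self _).trans (hM σ hσ)
  have hM0 : 0 ≤ M := (norm_nonneg _).trans (hM (1 / 2) (by constructor <;> norm_num))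
  set δ : ℝ := min (δ0 / 4) (1 / 8) with hδdef
  have hδ : 0 < δ := lt_min (by positivity) (by norm_num)
  have hδ1 : δ ≤ 1 / 4 := (min_le_right _ _).trans (by norm_num)
  have hδδ : 2 * δ < δ0 := by
    have : δ ≤ δ0 / 4 := min_le_left _ _
    linarith
  obtain ⟨T1, hT13, h1⟩ := zeta_both hδ hδ1 hε
  obtain ⟨C2, T2, h2⟩ := h (ε / 8) (by linarith)
  refine ⟨4 + |C2| * 3 ^ (M + ε) * 4, max T1 T2, ?_⟩
  intro T hT σ hσ hσ1
  have hTT1 : T1 ≤ T := (le_max_left _ _).trans hT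
  have hTT2 : T2 ≤ T := (le_max_right _ _).trans hT
  have hT3 : 3 ≤ T := hT13.trans hTT1
  have hT0 : 0 < T := by linarith
  have hσI : σ ∈ Icc (1 / 2 : ℝ) 1 := ⟨hσ, hσ1⟩
  have haσ := ha0 σ hσI
  have hp0 : 0 < T ^ (a σ + ε) := by positivity
  have hB : 0 ≤ |C2| * 3 ^ (M + ε) * 4 := by positivity
  rcases lt_or_ge σ (1 / 2 + 2 * δ) with hc | hc
  · have e4 : dist (a σ) (a (1 / 2)) < ε / 8 := by
      apply hδ2 σ hσI (1 / 2) ⟨le_rfl, by norm_num⟩
      rw [Real.dist_eq, abs_of_nonneg (by linarith)]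
      linarith
    rw [Real.dist_eq] at e4
    have e5 := (abs_lt.1 e4).1
    have e6 : T ≤ T ^ (a σ + ε) := by
      calc T = T ^ (1 : ℝ) := (Real.rpow_one T).symm
        _ ≤ _ := Real.rpow_le_rpow_of_exponent_le (by linarith) (by linarith)
    calc _ ≤ T := dev_le ε σ hT0.le
      _ ≤ 1 * T ^ (a σ + ε) := by rw [one_mul]; exact e6
      _ ≤ _ := by gcongr; linarith
  · have hσ' : σ - δ ∈ Icc (1 / 2 : ℝ) 1 := ⟨by linarith, by linarith⟩
    set Zf := (DH31.zeros_finite (σ - δ) (3 * T)).toFinset with hZf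
    have hsub : dev ε σ T ⊆ Icc 0 4 ∪ ⋃ ρ ∈ Zf, Icc (ρ.im - 2) (ρ.im + 2) := by
      intro t ht
      obtain ⟨⟨ht0, htT⟩, hu⟩ := ht
      rcases le_or_gt t 4 with htL | htL
      · exact Or.inl ⟨ht0, htL⟩
      · right
        by_contra hcon
        have hfree : ∀ ρ : ℂ, riemannZeta ρ = 0 → σ - δ < ρ.re → 2 ≤ |ρ.im - (⟨σ, t⟩ : ℂ).im| := by
          intro ρ hρ hρσ
          by_contra hlt
          push Not at hlt
          apply hcon
          have h4 := abs_lt.1 hlt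
          simp only at h4
          simp only [Set.mem_iUnion]
          refine ⟨ρ, ?_, ⟨by linarith [h4.2], by linarith [h4.1]⟩⟩
          rw [hZf, Set.Finite.mem_toFinset]
          exact ⟨hρ, hρσ.le, by linarith [h4.1], by linarith [h4.2]⟩
        exact hu (h1 T hTT1 σ (by linarith) hσ1 ⟨σ, t⟩ le_rfl (by simp only; linarith)
          (by simp only; linarith) htT hfree)
    have hvol : volume (dev ε σ T) ≤ ENNReal.ofReal (4 + Zf.card * (2 * 2)) := by
      refine (measure_mono hsub).trans ((measure_union_le _ _).trans ?_)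
      rw [ENNReal.ofReal_add (by norm_num) (by positivity)]
      refine add_le_add ?_ vol_union_le
      rw [Real.volume_Icc, sub_zero]
    have hvol2 := ENNReal.toReal_le_of_le_ofReal (by positivity) hvol
    have e1 : (Zf.card : ℝ) ≤ |C2| * 3 ^ (M + ε) * T ^ (a σ + ε) := by
      have e2 : (Zf.card : ℝ) ≤ N (σ - δ) (3 * T) := by exact_mod_cast card_zeros_le _ _
      have e3 := h2 (3 * T) (by linarith) (σ - δ) hσ'.1 hσ'.2
      have e4 : dist (a (σ - δ)) (a σ) < ε / 8 := by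
        apply hδ2 _ hσ' σ hσI
        rw [Real.dist_eq, abs_sub_comm, abs_of_nonneg (by linarith)]
        linarith
      rw [Real.dist_eq] at e4
      have e6 := (abs_lt.1 e4).2
      calc (Zf.card : ℝ) ≤ C2 * (3 * T) ^ (a (σ - δ) + ε / 8) := e2.trans e3
        _ ≤ |C2| * (3 * T) ^ (a σ + ε) := by
            apply mul_le_mul (le_abs_self _) _ (by positivity) (abs_nonneg _)
            exact Real.rpow_le_rpow_of_exponent_le (by linarith) (by linarith)
        _ = |C2| * (3 ^ (a σ + ε) * T ^ (a σ + ε)) := by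
            rw [Real.mul_rpow (by norm_num) hT0.le]
        _ ≤ |C2| * (3 ^ (M + ε) * T ^ (a σ + ε)) := by
            gcongr
            · norm_num
            · exact hM' σ hσI
        _ = _ := by ring
    have hone : 1 ≤ T ^ (a σ + ε) := Real.one_le_rpow (by linarith) (by linarith)
    calc (volume (dev ε σ T)).toReal ≤ 4 + Zf.card * (2 * 2) := hvol2
      _ ≤ 4 * T ^ (a σ + ε) + (|C2| * 3 ^ (M + ε) * T ^ (a σ + ε)) * (2 * 2) := by
          gcongr
          linarith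
      _ = _ := by ring

theorem dev_to_area (a : ℝ → ℝ) (hmono : AntitoneOn a (Icc (1 / 2) 1)) (h : LDev a) : LArea a := by
  intro ε hε
  obtain ⟨C, T0, hC⟩ := h ε hε
  refine ⟨|C|, max T0 1, fun T hT σ hσ hσ1 => ?_⟩
  have h1 : T0 ≤ T := (le_max_left _ _).trans hT
  have h2 : 1 ≤ T := (le_max_right _ _).trans hT
  have hp : 0 < T ^ (a σ + ε) := by positivity
  apply ENNReal.toReal_le_of_le_ofReal (by positivity)
  rw [area_le]
  have h3 : ∀ x ∈ Icc σ 1, volume (dev ε x T) ≤ ENNReal.ofReal (|C| * T ^ (a σ + ε)) := by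
    intro x hx
    rw [← ENNReal.ofReal_toReal (dev_lt_top ε x T).ne]
    apply ENNReal.ofReal_le_ofReal
    refine (hC T h1 x (hσ.trans hx.1) hx.2).trans ?_
    apply mul_le_mul (le_abs_self _) _ (by positivity) (abs_nonneg _)
    apply Real.rpow_le_rpow_of_exponent_le h2
    have := hmono ⟨hσ, hσ1⟩ ⟨hσ.trans hx.1, hx.2⟩ hx.1
    linarith
  calc _ ≤ ∫⁻ x in Icc σ 1, ENNReal.ofReal (|C| * T ^ (a σ + ε)) :=
        setLIntegral_mono' measurableSet_Icc h3
    _ = ENNReal.ofReal (|C| * T ^ (a σ + ε)) * ENNReal.ofReal (1 - σ) := by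
        rw [lintegral_const, Measure.restrict_apply_univ, Real.volume_Icc]
    _ ≤ ENNReal.ofReal (|C| * T ^ (a σ + ε)) * 1 := by
        gcongr
        rw [ENNReal.ofReal_le_one]
        linarith
    _ = _ := mul_one _

/-- disjoint sets of large measure -/
lemma card_mul_vol {S : Finset ℕ} {G : ℕ → Set ℂ} {B : Set ℂ} {v : ENNReal}
    (hm : ∀ n ∈ S, MeasurableSet (G n))
    (hd : ∀ m ∈ S, ∀ n ∈ S, m ≠ n → Disjoint (G m) (G n)) (hv : ∀ n ∈ S, v ≤ volume (G n))
    (hB : ∀ n ∈ S, G n ⊆ B) : (S.card : ENNReal) * v ≤ volume B := by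
  calc (S.card : ENNReal) * v = ∑ n ∈ S, v := by rw [Finset.sum_const, nsmul_eq_mul]
    _ ≤ ∑ n ∈ S, volume (G n) := Finset.sum_le_sum hv
    _ = volume (⋃ n ∈ S, G n) := (measure_biUnion_finset (fun m hm' n hn hmn => hd m hm' n hn hmn) hm).symm
    _ ≤ volume B := measure_mono (Set.iUnion₂_subset hB)

lemma area_lt_top (ε σ T : ℝ) : volume (area ε σ T) < ⊤ := by
  rw [area_eq]
  have h : pl ε σ T ⊆ Icc σ 1 ×ˢ Icc 0 T := fun v hv => ⟨hv.1, hv.2.1⟩
  refine lt_of_le_of_lt (measure_mono h) ?_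
  rw [Measure.volume_eq_prod, Measure.prod_prod, Real.volume_Icc, Real.volume_Icc]
  exact ENNReal.mul_lt_top ENNReal.ofReal_lt_top ENNReal.ofReal_lt_top

theorem area_to_dens (a : ℝ → ℝ) (ha : ContinuousOn a (Icc (1 / 2) 1)) (ha1 : 1 ≤ a (1 / 2))
    (ha0 : ∀ σ ∈ Icc (1 / 2 : ℝ) 1, 0 ≤ a σ) (h : LArea a) : Dens a := by
  classical
  intro ε hε
  have huc := isCompact_Icc.uniformContinuousOn_of_continuous ha
  rw [Metric.uniformContinuousOn_iff] at huc
  obtain ⟨δ0, hδ0, hδ2⟩ := huc (ε / 8) (by linarith)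
  obtain ⟨M, hM⟩ := isCompact_Icc.exists_bound_of_continuousOn ha
  have hM' : ∀ σ ∈ Icc (1 / 2 : ℝ) 1, a σ ≤ M := fun σ hσ => (le_abs_self _).trans (hM σ hσ)
  have hM0 : 0 ≤ M := (norm_nonneg _).trans (hM (1 / 2) (by constructor <;> norm_num))
  set δ : ℝ := min (δ0 / 2) (1 / 2) with hδdef
  have hδ : 0 < δ := lt_min (by positivity) (by norm_num)
  have hδ1 : δ ≤ 1 / 2 := min_le_right _ _
  have hδδ : δ < δ0 := by
    have : δ ≤ δ0 / 2 := min_le_left _ _
    linarith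
  set r : ℝ := min (δ / 2) (1 / 16) with hr
  have hr0 : 0 < r := lt_min (by positivity) (by norm_num)
  have hr1 : r ≤ 1 / 16 := min_le_right _ _
  have hrδ : 2 * r ≤ δ := by
    have : r ≤ δ / 2 := min_le_left _ _
    linarith
  set e : ℝ := min ε 1 / 32 with he
  have he0 : 0 < e := by
    have : 0 < min ε 1 := lt_min hε one_pos
    positivity
  have he1 : e ≤ 1 := by
    have : min ε 1 ≤ 1 := min_le_right _ _
    linarith
  have heε : 32 * e ≤ ε := by
    have : min ε 1 ≤ ε := min_le_left _ _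
    linarith
  obtain ⟨T1, -, h1⟩ := near_zero he0 he1 hr0 hr1
  obtain ⟨C2, T2, h2⟩ := h e he0
  obtain ⟨C3, hC3, h3⟩ := DH31.windows_to_count
  obtain ⟨K, hK, h4⟩ := absorb (show 0 < ε / 2 by positivity)
  refine ⟨C3 + C3 * K * (2 + 7 + 16 / r ^ 2 * |C2| * 3 ^ (M + ε)), max (max T1 T2) 3, ?_⟩
  intro T hT σ hσ hσ1
  have hTT1 : T1 ≤ T := ((le_max_left _ _).trans (le_max_left _ _)).trans hT
  have hTT2 : T2 ≤ T := ((le_max_right _ _).trans (le_max_left _ _)).trans hT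
  have hT3 : 3 ≤ T := (le_max_right _ _).trans hT
  have hT0 : 0 < T := by linarith
  have hσI : σ ∈ Icc (1 / 2 : ℝ) 1 := ⟨hσ, hσ1⟩
  have haσ := ha0 σ hσI
  have hL0 : 0 ≤ Real.log T := Real.log_nonneg (by linarith)
  have hone : 1 ≤ T ^ (a σ + ε) := Real.one_le_rpow (by linarith) (by linarith)
  have e7 : Real.log T ≤ K * T ^ (ε / 2) := by
    have := h4 T (by linarith)
    linarith
  have hzsub : DH31.zeros σ T ⊆ DH31.zeros (1 / 2) T :=
    fun ρ hρ => ⟨hρ.1, hσ.trans hρ.2.1, hρ.2.2.1, hρ.2.2.2⟩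
  have hKp : 0 < K := by linarith
  have hr2 : 0 < r ^ 2 := by positivity
  -- the number of a window
  have hwin : ∀ ρ ∈ DH31.zeros σ T, (⌈ρ.im⌉₊ - 1) ∈ Finset.range (⌊T⌋₊ + 1) ∧
      (((⌈ρ.im⌉₊ - 1 : ℕ) : ℝ)) < ρ.im ∧ ρ.im ≤ ((⌈ρ.im⌉₊ - 1 : ℕ) : ℝ) + 1 := by
    intro ρ hρ
    have g1 : 0 < ⌈ρ.im⌉₊ := Nat.ceil_pos.2 hρ.2.2.1
    have g2 : ((⌈ρ.im⌉₊ - 1 : ℕ) : ℝ) = (⌈ρ.im⌉₊ : ℝ) - 1 := by
      rw [Nat.cast_sub (by omega)]
      simp
    have g3 := Nat.ceil_lt_add_one hρ.2.2.1.le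
    have g4 := Nat.le_ceil ρ.im
    refine ⟨?_, by rw [g2]; linarith, by rw [g2]; linarith⟩
    rw [Finset.mem_range]
    have g5 : ((⌈ρ.im⌉₊ - 1 : ℕ) : ℝ) ≤ T := by
      rw [g2]
      linarith [hρ.2.2.2]
    have := Nat.le_floor g5
    omega
  rcases lt_or_ge σ (1 / 2 + δ) with hc | hc
  · have e4 : dist (a σ) (a (1 / 2)) < ε / 8 := by
      apply hδ2 σ hσI (1 / 2) ⟨le_rfl, by norm_num⟩
      rw [Real.dist_eq, abs_of_nonneg (by linarith)]
      linarith
    rw [Real.dist_eq] at e4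
    have e5 := (abs_lt.1 e4).1
    have e6 := h3 T hT3 (DH31.zeros σ T) hzsub (Finset.range (⌊T⌋₊ + 1)) (fun ρ hρ _ =>
      ⟨_, (hwin ρ hρ).1, (hwin ρ hρ).2⟩)
    rw [Finset.card_range] at e6
    have e8 : ((⌊T⌋₊ + 1 : ℕ) : ℝ) ≤ 2 * T := by
      push_cast
      have := Nat.floor_le hT0.le
      linarith
    have e9 : T * T ^ (ε / 2) ≤ T ^ (a σ + ε) := by
      have : T * T ^ (ε / 2) = T ^ (1 + ε / 2) := by
        rw [Real.rpow_add hT0, Real.rpow_one]
      rw [this]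
      exact Real.rpow_le_rpow_of_exponent_le (by linarith) (by linarith)
    calc (N σ T : ℝ) ≤ C3 + ((⌊T⌋₊ + 1 : ℕ) : ℝ) * (C3 * Real.log T) := e6
      _ ≤ C3 + (2 * T) * (C3 * (K * T ^ (ε / 2))) := by gcongr
      _ = C3 * 1 + C3 * K * 2 * (T * T ^ (ε / 2)) := by ring
      _ ≤ C3 * T ^ (a σ + ε) + C3 * K * 2 * T ^ (a σ + ε) := by gcongr
      _ ≤ _ := by
          have : 0 ≤ C3 * K * (7 + 16 / r ^ 2 * |C2| * 3 ^ (M + ε)) * T ^ (a σ + ε) := by positivity
          linarith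
  · have hσ' : σ - 2 * r ∈ Icc (1 / 2 : ℝ) 1 := ⟨by linarith, by linarith⟩
    set P : ℕ → Prop := fun n => ∃ ρ ∈ DH31.zeros σ T, 6 ≤ ρ.im ∧ (n : ℝ) < ρ.im ∧ ρ.im ≤ n + 1 with hP
    set S1 : Finset ℕ := (Finset.range (⌊T⌋₊ + 1)).filter P with hS1
    have hex : ∀ n : ℕ, ∃ ρ : ℂ, n ∈ S1 → (ρ ∈ DH31.zeros σ T ∧ 6 ≤ ρ.im ∧ (n : ℝ) < ρ.im ∧ ρ.im ≤ n + 1) := by
      intro n
      by_cases hn : n ∈ S1
      · rw [hS1, Finset.mem_filter] at hn
        obtain ⟨_, ρ, k1, k2⟩ := hn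
        exact ⟨ρ, fun _ => ⟨k1, k2⟩⟩
      · exact ⟨0, fun h => absurd h hn⟩
    choose f hf using hex
    set G : ℕ → Set ℂ := fun n => Metric.ball (f n) (2 * r) ∩ E e (T + 2) ∩ {s : ℂ | s.re ≤ 1} with hG
    have hGm : ∀ n, MeasurableSet (G n) := fun n =>
      (measurableSet_ball.inter (measurableSet_E _ _)).inter
        (measurableSet_le Complex.measurable_re measurable_const)
    have hGim : ∀ n ∈ S1, ∀ s ∈ G n, (n : ℝ) - 1 / 8 < s.im ∧ s.im < n + 9 / 8 := by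
      intro n hn s hs
      obtain ⟨k1, k2, k3, k4⟩ := hf n hn
      have hs1 : dist s (f n) < 2 * r := hs.1.1
      rw [dist_eq_norm] at hs1
      have g := abs_lt.1 ((Complex.abs_im_le_norm _).trans_lt hs1)
      rw [Complex.sub_im] at g
      exact ⟨by linarith [g.1], by linarith [g.2]⟩
    have hGv : ∀ n ∈ S1, ENNReal.ofReal (r ^ 2 / 8 * (T + 2) ^ (-(6 * e))) ≤ volume (G n) := by
      intro n hn
      obtain ⟨k1, k2, k3, k4⟩ := hf n hn
      exact h1 (T + 2) (by linarith) (f n) k1.1 (hσ.trans k1.2.1) (by linarith)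
        (by linarith [k1.2.2.2])
    have hGB : ∀ n ∈ S1, G n ⊆ area e (σ - 2 * r) (T + 2) := by
      intro n hn s hs
      obtain ⟨k1, k2, k3, k4⟩ := hf n hn
      have hs1 : dist s (f n) < 2 * r := hs.1.1
      rw [dist_eq_norm] at hs1
      have g1 := abs_lt.1 ((Complex.abs_re_le_norm _).trans_lt hs1)
      have g2 := abs_lt.1 ((Complex.abs_im_le_norm _).trans_lt hs1)
      rw [Complex.sub_re] at g1
      rw [Complex.sub_im] at g2
      exact ⟨⟨by linarith [g1.1, k1.2.1], hs.2⟩, ⟨by linarith [g2.1], by linarith [g2.2, k1.2.2.2]⟩, hs.1.2⟩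
    set V := (volume (area e (σ - 2 * r) (T + 2))).toReal with hV
    set Q := r ^ 2 / 8 * (T + 2) ^ (-(6 * e)) with hQ
    have hQ0 : 0 < Q := by positivity
    have hpar : ∀ j : ℕ, ((S1.filter (fun n => n % 2 = j)).card : ℝ) * Q ≤ V := by
      intro j
      have k := card_mul_vol (S := S1.filter (fun n => n % 2 = j)) (G := G)
        (B := area e (σ - 2 * r) (T + 2)) (v := ENNReal.ofReal Q) (fun n _ => hGm n) (by
          intro m hm n hn hmn
          rw [Finset.mem_filter] at hm hn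
          rw [Set.disjoint_left]
          intro s hsm hsn
          have u1 := hGim m hm.1 s hsm
          have u2 := hGim n hn.1 s hsn
          have u3 : (m : ℝ) < n + 2 := by linarith [u1.1, u2.2]
          have u4 : (n : ℝ) < m + 2 := by linarith [u1.2, u2.1]
          have u5 : m < n + 2 := by exact_mod_cast u3
          have u6 : n < m + 2 := by exact_mod_cast u4
          have u7 := hm.2
          have u8 := hn.2
          omega) (fun n hn => hGv n (Finset.mem_filter.1 hn).1)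
          (fun n hn => hGB n (Finset.mem_filter.1 hn).1)
      have k2 := ENNReal.toReal_mono (area_lt_top _ _ _).ne k
      rwa [ENNReal.toReal_mul, ENNReal.toReal_natCast, ENNReal.toReal_ofReal hQ0.le] at k2
    have hcard : (S1.card : ℝ) * Q ≤ 2 * V := by
      have k1 : S1 = S1.filter (fun n => n % 2 = 0) ∪ S1.filter (fun n => n % 2 = 1) := by
        ext n
        simp only [Finset.mem_union, Finset.mem_filter]
        constructor
        · intro hn
          have : n % 2 = 0 ∨ n % 2 = 1 := by omega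
          rcases this with h | h
          · exact Or.inl ⟨hn, h⟩
          · exact Or.inr ⟨hn, h⟩
        · rintro (h | h) <;> exact h.1
      have k2 : (S1.card : ℝ) ≤ (S1.filter (fun n => n % 2 = 0)).card +
          (S1.filter (fun n => n % 2 = 1)).card := by
        have := Finset.card_union_le (S1.filter (fun n => n % 2 = 0)) (S1.filter (fun n => n % 2 = 1))
        rw [← k1] at this
        exact_mod_cast this
      have k3 := hpar 0
      have k4 := hpar 1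
      nlinarith
    have e3 := h2 (T + 2) (by linarith) (σ - 2 * r) hσ'.1 hσ'.2
    have e4 : dist (a (σ - 2 * r)) (a σ) < ε / 8 := by
      apply hδ2 _ hσ' σ hσI
      rw [Real.dist_eq, abs_sub_comm, abs_of_nonneg (by linarith)]
      linarith
    rw [Real.dist_eq] at e4
    have e5 := (abs_lt.1 e4).2
    have hT2 : 0 < T + 2 := by linarith
    have e6 : (S1.card : ℝ) ≤ 16 / r ^ 2 * |C2| * 3 ^ (M + ε) * T ^ (a σ + ε / 2) := by
      have i0 : (S1.card : ℝ) * Q ≤ 2 * (|C2| * (T + 2) ^ (a (σ - 2 * r) + e)) := by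
        refine hcard.trans ?_
        apply mul_le_mul_of_nonneg_left _ (by norm_num)
        exact e3.trans (mul_le_mul_of_nonneg_right (le_abs_self _) (by positivity))
      have i1 : (T + 2) ^ (-(6 * e)) * (T + 2) ^ (6 * e) = 1 := by
        rw [← Real.rpow_add hT2]
        simp
      have i2 : (S1.card : ℝ) * (r ^ 2 / 8) ≤ 2 * (|C2| * (T + 2) ^ (a (σ - 2 * r) + e)) * (T + 2) ^ (6 * e) := by
        calc (S1.card : ℝ) * (r ^ 2 / 8) = (S1.card : ℝ) * (r ^ 2 / 8) * ((T + 2) ^ (-(6 * e)) * (T + 2) ^ (6 * e)) := by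
              rw [i1, mul_one]
          _ = (S1.card : ℝ) * Q * (T + 2) ^ (6 * e) := by rw [hQ]; ring
          _ ≤ _ := mul_le_mul_of_nonneg_right i0 (by positivity)
      have i3 : (T + 2) ^ (a (σ - 2 * r) + e) * (T + 2) ^ (6 * e) ≤ 3 ^ (M + ε) * T ^ (a σ + ε / 2) := by
        calc _ = (T + 2) ^ (a (σ - 2 * r) + e + 6 * e) := by rw [← Real.rpow_add hT2]
          _ ≤ (T + 2) ^ (a σ + ε / 2) :=
              Real.rpow_le_rpow_of_exponent_le (by linarith) (by linarith)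
          _ ≤ (3 * T) ^ (a σ + ε / 2) :=
              Real.rpow_le_rpow (by linarith) (by linarith) (by linarith)
          _ = 3 ^ (a σ + ε / 2) * T ^ (a σ + ε / 2) := Real.mul_rpow (by norm_num) hT0.le
          _ ≤ _ := by
              gcongr
              · norm_num
              · exact hM' σ hσI
              · linarith
      have i4 : (S1.card : ℝ) * (r ^ 2 / 8) ≤ 2 * |C2| * (3 ^ (M + ε) * T ^ (a σ + ε / 2)) := by
        refine i2.trans ?_
        calc _ = 2 * |C2| * ((T + 2) ^ (a (σ - 2 * r) + e) * (T + 2) ^ (6 * e)) := by ring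
          _ ≤ _ := mul_le_mul_of_nonneg_left i3 (by positivity)
      calc (S1.card : ℝ) = (S1.card : ℝ) * (r ^ 2 / 8) * (8 / r ^ 2) := by field_simp
        _ ≤ 2 * |C2| * (3 ^ (M + ε) * T ^ (a σ + ε / 2)) * (8 / r ^ 2) :=
            mul_le_mul_of_nonneg_right i4 (by positivity)
        _ = _ := by ring
    have e8 := h3 T hT3 (DH31.zeros σ T) hzsub (Finset.range 7 ∪ S1) (fun ρ hρ _ => by
      obtain ⟨g1, g2, g3⟩ := hwin ρ hρ
      refine ⟨_, ?_, g2, g3⟩
      rw [Finset.mem_union]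
      rcases lt_or_ge ρ.im 6 with h6 | h6
      · left
        rw [Finset.mem_range]
        have : ((⌈ρ.im⌉₊ - 1 : ℕ) : ℝ) < (7 : ℕ) := by
          push_cast
          linarith
        exact_mod_cast this
      · right
        rw [hS1, Finset.mem_filter]
        exact ⟨g1, ρ, hρ, h6, g2, g3⟩)
    have e9 : ((Finset.range 7 ∪ S1).card : ℝ) ≤ 7 + S1.card := by
      have := Finset.card_union_le (Finset.range 7) S1
      rw [Finset.card_range] at this
      exact_mod_cast this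
    have i1 : T ^ (ε / 2) ≤ T ^ (a σ + ε) :=
      Real.rpow_le_rpow_of_exponent_le (by linarith) (by linarith)
    have i2 : T ^ (a σ + ε / 2) * T ^ (ε / 2) = T ^ (a σ + ε) := by
      rw [← Real.rpow_add hT0]
      congr 1
      ring
    set W := 16 / r ^ 2 * |C2| * 3 ^ (M + ε) with hW
    have hW0 : 0 ≤ W := by positivity
    calc (N σ T : ℝ) ≤ C3 + ((Finset.range 7 ∪ S1).card : ℝ) * (C3 * Real.log T) := e8
      _ ≤ C3 + (7 + W * T ^ (a σ + ε / 2)) * (C3 * (K * T ^ (ε / 2))) := by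
          have j1 : ((Finset.range 7 ∪ S1).card : ℝ) ≤ 7 + W * T ^ (a σ + ε / 2) := by linarith
          gcongr
      _ = C3 * 1 + C3 * K * 7 * T ^ (ε / 2) +
          C3 * K * W * (T ^ (a σ + ε / 2) * T ^ (ε / 2)) := by ring
      _ ≤ C3 * T ^ (a σ + ε) + C3 * K * 7 * T ^ (a σ + ε) +
          C3 * K * W * T ^ (a σ + ε) := by
          rw [i2]
          gcongr
      _ ≤ _ := by
          have : 0 ≤ C3 * K * 2 * T ^ (a σ + ε) := by positivity
          linarith

end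

end Pool.Agent.R305.LD
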