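import Pool.Agent.R305.LD.C
set_option autoImplicit false
set_option maxHeartbeats 1000000

/-!
The dictionary between zeros and large deviations.
-/

open Complex Filter Topology MeasureTheory Set

namespace Pool.Agent.R305.LD

open Pool.Agent.R305.MV

noncomputable section

/-- the measure of the large deviations is bounded by the number of zeros -/
theorem dict_dev {δ ε : ℝ} (hδ : 0 < δ) (hδ1 : δ ≤ 1 / 4) (hε : 0 < ε) :
    ∃ T0 : ℝ, ∀ T : ℝ, T0 ≤ T → ∀ σ : ℝ, 1 / 2 + δ ≤ σ → σ ≤ 1 →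
      (volume (dev ε σ T)).toReal ≤ 4 + 4 * N (σ - δ) (T + 2) := by
  obtain ⟨T1, hT13, h1⟩ := zeta_both hδ hδ1 hε
  refine ⟨T1, fun T hT σ hσ hσ1 => ?_⟩
  have hT3 : 3 ≤ T := hT13.trans hT
  set Zf := (DH31.zeros_finite (σ - δ) (T + 2)).toFinset with hZf
  have hsub : dev ε σ T ⊆ Icc 0 4 ∪ ⋃ ρ ∈ Zf, Icc (ρ.im - 2) (ρ.im + 2) := by
    intro t ht
    obtain ⟨⟨ht0, htT⟩, hu⟩ := ht
    rcases le_or_gt t 4 with htL | htL
    · exact Or.inl ⟨ht0, htL⟩
    · right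
      by_contra hcon
      have hfree : ∀ ρ : ℂ, riemannZeta ρ = 0 → σ - δ < ρ.re → 2 ≤ |ρ.im - (⟨σ, t⟩ : ℂ).im| := by
        intro ρ hρ hρσ
        by_contra hlt
        push Not at hlt
        apply hcon
        have h4 := abs_lt.1 hlt
        simp only at h4
        simp only [Set.mem_iUnion]
        refine ⟨ρ, ?_, ⟨by linarith [h4.2], by linarith [h4.1]⟩⟩
        rw [hZf, Set.Finite.mem_toFinset]
        exact ⟨hρ, hρσ.le, by linarith [h4.1], by linarith [h4.2]⟩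
      exact hu (h1 T hT σ hσ hσ1 ⟨σ, t⟩ le_rfl (by simp only; linarith)
        (by simp only; linarith) htT hfree)
  have hvol : volume (dev ε σ T) ≤ ENNReal.ofReal (4 + Zf.card * (2 * 2)) := by
    refine (measure_mono hsub).trans ((measure_union_le _ _).trans ?_)
    rw [ENNReal.ofReal_add (by norm_num) (by positivity)]
    refine add_le_add ?_ vol_union_le
    rw [Real.volume_Icc, sub_zero]
  have hvol2 := ENNReal.toReal_le_of_le_ofReal (by positivity) hvol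
  have e2 : (Zf.card : ℝ) ≤ N (σ - δ) (T + 2) := by exact_mod_cast card_zeros_le _ _
  linarith

/-- the points of large deviation are close to zeros -/
theorem dict_point {δ ε : ℝ} (hδ : 0 < δ) (hδ1 : δ ≤ 1 / 4) (hε : 0 < ε) :
    ∃ T0 : ℝ, ∀ T : ℝ, T0 ≤ T → ∀ z : ℂ, 1 / 2 + δ ≤ z.re → z.re ≤ 1 → 3 ≤ z.im → z.im ≤ T →
      z ∈ E ε T → ∃ ρ : ℂ, riemannZeta ρ = 0 ∧ z.re - δ < ρ.re ∧ |ρ.im - z.im| < 2 := by
  obtain ⟨T1, hT13, h1⟩ := zeta_both hδ hδ1 hε
  refine ⟨T1, fun T hT z hz hz1 hz3 hzT hE => ?_⟩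
  by_contra hcon
  push Not at hcon
  exact hE (h1 T hT z.re hz hz1 z le_rfl (by linarith) hz3 hzT hcon)

/-- the number of zeros is bounded by the area of the large deviations -/
theorem dict_area {δ e : ℝ} (hδ : 0 < δ) (hδ1 : δ ≤ 1 / 2) (he0 : 0 < e) (he1 : e ≤ 1) :
    ∃ C T0 : ℝ, 0 < C ∧ ∀ T : ℝ, T0 ≤ T → ∀ σ : ℝ, 1 / 2 + δ ≤ σ → σ ≤ 1 →
      (N σ T : ℝ) ≤ C * T ^ (7 * e) * (1 + (volume (area e (σ - δ) (T + 2))).toReal) := by
  classical
  set r : ℝ := min (δ / 2) (1 / 16) with hr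
  have hr0 : 0 < r := lt_min (by positivity) (by norm_num)
  have hr1 : r ≤ 1 / 16 := min_le_right _ _
  have hrδ : 2 * r ≤ δ := by
    have : r ≤ δ / 2 := min_le_left _ _
    linarith
  obtain ⟨T1, -, h1⟩ := near_zero he0 he1 hr0 hr1
  obtain ⟨C3, hC3, h3⟩ := DH31.windows_to_count
  obtain ⟨K, hK, h4⟩ := absorb he0
  refine ⟨C3 + C3 * K * (7 + 16 / r ^ 2 * 3 ^ (6 * e)), max T1 3, by positivity, ?_⟩
  intro T hT σ hc hσ1
  have hTT1 : T1 ≤ T := (le_max_left _ _).trans hT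
  have hT3 : 3 ≤ T := (le_max_right _ _).trans hT
  have hT0 : 0 < T := by linarith
  have hσ : 1 / 2 ≤ σ := by linarith
  have hL0 : 0 ≤ Real.log T := Real.log_nonneg (by linarith)
  have e7 : Real.log T ≤ K * T ^ e := by
    have := h4 T (by linarith)
    linarith
  have hzsub : DH31.zeros σ T ⊆ DH31.zeros (1 / 2) T :=
    fun ρ hρ => ⟨hρ.1, hσ.trans hρ.2.1, hρ.2.2.1, hρ.2.2.2⟩
  have hKp : 0 < K := by linarith
  have hr2 : 0 < r ^ 2 := by positivity
  -- the number of a window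
  have hwin : ∀ ρ ∈ DH31.zeros σ T, (⌈ρ.im⌉₊ - 1) ∈ Finset.range (⌊T⌋₊ + 1) ∧
      (((⌈ρ.im⌉₊ - 1 : ℕ) : ℝ)) < ρ.im ∧ ρ.im ≤ ((⌈ρ.im⌉₊ - 1 : ℕ) : ℝ) + 1 := by
    intro ρ hρ
    have g1 : 0 < ⌈ρ.im⌉₊ := Nat.ceil_pos.2 hρ.2.2.1
    have g2 : ((⌈ρ.im⌉₊ - 1 : ℕ) : ℝ) = (⌈ρ.im⌉₊ : ℝ) - 1 := by
      rw [Nat.cast_sub (by omega)]
      simp
    have g3 := Nat.ceil_lt_add_one hρ.2.2.1.le
    have g4 := Nat.le_ceil ρ.im
    refine ⟨?_, by rw [g2]; linarith, by rw [g2]; linarith⟩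
    rw [Finset.mem_range]
    have g5 : ((⌈ρ.im⌉₊ - 1 : ℕ) : ℝ) ≤ T := by
      rw [g2]
      linarith [hρ.2.2.2]
    have := Nat.le_floor g5
    omega
  set P : ℕ → Prop := fun n => ∃ ρ ∈ DH31.zeros σ T, 6 ≤ ρ.im ∧ (n : ℝ) < ρ.im ∧ ρ.im ≤ n + 1 with hP
  set S1 : Finset ℕ := (Finset.range (⌊T⌋₊ + 1)).filter P with hS1
  have hex : ∀ n : ℕ, ∃ ρ : ℂ, n ∈ S1 → (ρ ∈ DH31.zeros σ T ∧ 6 ≤ ρ.im ∧ (n : ℝ) < ρ.im ∧ ρ.im ≤ n + 1) := by
    intro n
    by_cases hn : n ∈ S1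
    · rw [hS1, Finset.mem_filter] at hn
      obtain ⟨_, ρ, k1, k2⟩ := hn
      exact ⟨ρ, fun _ => ⟨k1, k2⟩⟩
    · exact ⟨0, fun h => absurd h hn⟩
  choose f hf using hex
  set G : ℕ → Set ℂ := fun n => Metric.ball (f n) (2 * r) ∩ E e (T + 2) ∩ {s : ℂ | s.re ≤ 1} with hG
  have hGm : ∀ n, MeasurableSet (G n) := fun n =>
    (measurableSet_ball.inter (measurableSet_E _ _)).inter
      (measurableSet_le Complex.measurable_re measurable_const)
  have hGim : ∀ n ∈ S1, ∀ s ∈ G n, (n : ℝ) - 1 / 8 < s.im ∧ s.im < n + 9 / 8 := by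
    intro n hn s hs
    obtain ⟨k1, k2, k3, k4⟩ := hf n hn
    have hs1 : dist s (f n) < 2 * r := hs.1.1
    rw [dist_eq_norm] at hs1
    have g := abs_lt.1 ((Complex.abs_im_le_norm _).trans_lt hs1)
    rw [Complex.sub_im] at g
    exact ⟨by linarith [g.1], by linarith [g.2]⟩
  have hGv : ∀ n ∈ S1, ENNReal.ofReal (r ^ 2 / 8 * (T + 2) ^ (-(6 * e))) ≤ volume (G n) := by
    intro n hn
    obtain ⟨k1, k2, k3, k4⟩ := hf n hn
    exact h1 (T + 2) (by linarith) (f n) k1.1 (hσ.trans k1.2.1) (by linarith)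
      (by linarith [k1.2.2.2])
  have hGB : ∀ n ∈ S1, G n ⊆ area e (σ - 2 * r) (T + 2) := by
    intro n hn s hs
    obtain ⟨k1, k2, k3, k4⟩ := hf n hn
    have hs1 : dist s (f n) < 2 * r := hs.1.1
    rw [dist_eq_norm] at hs1
    have g1 := abs_lt.1 ((Complex.abs_re_le_norm _).trans_lt hs1)
    have g2 := abs_lt.1 ((Complex.abs_im_le_norm _).trans_lt hs1)
    rw [Complex.sub_re] at g1
    rw [Complex.sub_im] at g2
    exact ⟨⟨by linarith [g1.1, k1.2.1], hs.2⟩, ⟨by linarith [g2.1], by linarith [g2.2, k1.2.2.2]⟩, hs.1.2⟩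
  set V := (volume (area e (σ - 2 * r) (T + 2))).toReal with hV
  set Q := r ^ 2 / 8 * (T + 2) ^ (-(6 * e)) with hQ
  have hQ0 : 0 < Q := by positivity
  have hpar : ∀ j : ℕ, ((S1.filter (fun n => n % 2 = j)).card : ℝ) * Q ≤ V := by
    intro j
    have k := card_mul_vol (S := S1.filter (fun n => n % 2 = j)) (G := G)
      (B := area e (σ - 2 * r) (T + 2)) (v := ENNReal.ofReal Q) (fun n _ => hGm n) (by
        intro m hm n hn hmn
        rw [Finset.mem_filter] at hm hn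
        rw [Set.disjoint_left]
        intro s hsm hsn
        have u1 := hGim m hm.1 s hsm
        have u2 := hGim n hn.1 s hsn
        have u3 : (m : ℝ) < n + 2 := by linarith [u1.1, u2.2]
        have u4 : (n : ℝ) < m + 2 := by linarith [u1.2, u2.1]
        have u5 : m < n + 2 := by exact_mod_cast u3
        have u6 : n < m + 2 := by exact_mod_cast u4
        have u7 := hm.2
        have u8 := hn.2
        omega) (fun n hn => hGv n (Finset.mem_filter.1 hn).1)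
        (fun n hn => hGB n (Finset.mem_filter.1 hn).1)
    have k2 := ENNReal.toReal_mono (area_lt_top _ _ _).ne k
    rwa [ENNReal.toReal_mul, ENNReal.toReal_natCast, ENNReal.toReal_ofReal hQ0.le] at k2
  have hcard : (S1.card : ℝ) * Q ≤ 2 * V := by
    have k1 : S1 = S1.filter (fun n => n % 2 = 0) ∪ S1.filter (fun n => n % 2 = 1) := by
      ext n
      simp only [Finset.mem_union, Finset.mem_filter]
      constructor
      · intro hn
        have : n % 2 = 0 ∨ n % 2 = 1 := by omega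
        rcases this with h | h
        · exact Or.inl ⟨hn, h⟩
        · exact Or.inr ⟨hn, h⟩
      · rintro (h | h) <;> exact h.1
    have k2 : (S1.card : ℝ) ≤ (S1.filter (fun n => n % 2 = 0)).card +
        (S1.filter (fun n => n % 2 = 1)).card := by
      have := Finset.card_union_le (S1.filter (fun n => n % 2 = 0)) (S1.filter (fun n => n % 2 = 1))
      rw [← k1] at this
      exact_mod_cast this
    have k3 := hpar 0
    have k4 := hpar 1
    nlinarith
  have hVV : V ≤ (volume (area e (σ - δ) (T + 2))).toReal := by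
    refine ENNReal.toReal_mono (area_lt_top _ _ _).ne (measure_mono ?_)
    rintro s ⟨⟨k1, k2⟩, k3⟩
    exact ⟨⟨by linarith, k2⟩, k3⟩
  set V' := (volume (area e (σ - δ) (T + 2))).toReal with hV'
  have hV0 : 0 ≤ V := ENNReal.toReal_nonneg
  have hV0' : 0 ≤ V' := ENNReal.toReal_nonneg
  have hT2 : 0 < T + 2 := by linarith
  have e6 : (S1.card : ℝ) ≤ 16 / r ^ 2 * 3 ^ (6 * e) * T ^ (6 * e) * V' := by
    have i1 : (T + 2) ^ (-(6 * e)) * (T + 2) ^ (6 * e) = 1 := by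
      rw [← Real.rpow_add hT2]
      simp
    have i2 : (S1.card : ℝ) * (r ^ 2 / 8) ≤ 2 * V' * (T + 2) ^ (6 * e) := by
      calc (S1.card : ℝ) * (r ^ 2 / 8) = (S1.card : ℝ) * (r ^ 2 / 8) * ((T + 2) ^ (-(6 * e)) * (T + 2) ^ (6 * e)) := by
            rw [i1, mul_one]
        _ = (S1.card : ℝ) * Q * (T + 2) ^ (6 * e) := by rw [hQ]; ring
        _ ≤ 2 * V * (T + 2) ^ (6 * e) := mul_le_mul_of_nonneg_right hcard (by positivity)
        _ ≤ _ := by gcongr
    have i3 : (T + 2) ^ (6 * e) ≤ 3 ^ (6 * e) * T ^ (6 * e) := by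
      rw [← Real.mul_rpow (by norm_num) hT0.le]
      exact Real.rpow_le_rpow (by linarith) (by linarith) (by positivity)
    calc (S1.card : ℝ) = (S1.card : ℝ) * (r ^ 2 / 8) * (8 / r ^ 2) := by field_simp
      _ ≤ 2 * V' * (3 ^ (6 * e) * T ^ (6 * e)) * (8 / r ^ 2) := by
          apply mul_le_mul_of_nonneg_right _ (by positivity)
          exact i2.trans (mul_le_mul_of_nonneg_left i3 (by positivity))
      _ = _ := by ring
  have e8 := h3 T hT3 (DH31.zeros σ T) hzsub (Finset.range 7 ∪ S1) (fun ρ hρ _ => by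
    obtain ⟨g1, g2, g3⟩ := hwin ρ hρ
    refine ⟨_, ?_, g2, g3⟩
    rw [Finset.mem_union]
    rcases lt_or_ge ρ.im 6 with h6 | h6
    · left
      rw [Finset.mem_range]
      have : ((⌈ρ.im⌉₊ - 1 : ℕ) : ℝ) < (7 : ℕ) := by
        push_cast
        linarith
      exact_mod_cast this
    · right
      rw [hS1, Finset.mem_filter]
      exact ⟨g1, ρ, hρ, h6, g2, g3⟩)
  have e9 : ((Finset.range 7 ∪ S1).card : ℝ) ≤ 7 + S1.card := by
    have := Finset.card_union_le (Finset.range 7) S1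
    rw [Finset.card_range] at this
    exact_mod_cast this
  have i1 : T ^ e ≤ T ^ (7 * e) := Real.rpow_le_rpow_of_exponent_le (by linarith) (by linarith)
  have i0 : 1 ≤ T ^ (7 * e) := Real.one_le_rpow (by linarith) (by positivity)
  have i2 : T ^ (6 * e) * T ^ e = T ^ (7 * e) := by
    rw [← Real.rpow_add hT0]
    congr 1
    ring
  set W := 16 / r ^ 2 * 3 ^ (6 * e) with hW
  have hW0 : 0 ≤ W := by positivity
  calc (N σ T : ℝ) ≤ C3 + ((Finset.range 7 ∪ S1).card : ℝ) * (C3 * Real.log T) := e8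
    _ ≤ C3 + (7 + W * T ^ (6 * e) * V') * (C3 * (K * T ^ e)) := by
        have j1 : ((Finset.range 7 ∪ S1).card : ℝ) ≤ 7 + W * T ^ (6 * e) * V' := by linarith
        gcongr
    _ = C3 * 1 + C3 * K * 7 * T ^ e + C3 * K * W * V' * (T ^ (6 * e) * T ^ e) := by ring
    _ ≤ C3 * T ^ (7 * e) + C3 * K * 7 * T ^ (7 * e) + C3 * K * W * V' * T ^ (7 * e) := by
        rw [i2]
        gcongr
    _ ≤ _ := by
        have k1 : 0 ≤ C3 * T ^ (7 * e) * V' := by positivity
        have k2 : 0 ≤ C3 * K * 7 * T ^ (7 * e) * V' := by positivity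
        have k3 : 0 ≤ C3 * K * W * T ^ (7 * e) := by positivity
        nlinarith

end

end Pool.Agent.R305.LD
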