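import Pool.Agent.R305.LD.D
set_option autoImplicit false
set_option maxHeartbeats 1000000

/-!
Zero-density estimates and large values of zeta.
-/

open Complex Filter Topology MeasureTheory Set

namespace Pool.Agent.R305.LD

open Pool.Agent.R305.MV

noncomputable section

/-- the points with a large value -/
def U (ε T : ℝ) : Set ℂ := {s : ℂ | T ^ ε < ‖riemannZeta s‖}

lemma measurableSet_U (ε T : ℝ) : MeasurableSet (U ε T) :=
  measurableSet_lt measurable_const measurable_zeta.norm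

/-- the heights of large values on the line `σ` -/
def hv (ε σ T : ℝ) : Set ℝ := {t : ℝ | (0 ≤ t ∧ t ≤ T) ∧ (⟨σ, t⟩ : ℂ) ∈ U ε T}

/-- the large value estimate with exponent `a` -/
def LVal (a : ℝ → ℝ) : Prop := ∀ ε : ℝ, 0 < ε → ∃ C T₀ : ℝ, ∀ T : ℝ, T₀ ≤ T → ∀ σ : ℝ,
  1 / 2 ≤ σ → σ ≤ 1 → (volume (hv ε σ T)).toReal ≤ C * T ^ (a σ + ε)

/-- the points with a large value in the strip -/
def av (ε σ T : ℝ) : Set ℂ := {s : ℂ | (σ ≤ s.re ∧ s.re ≤ 1) ∧ (0 ≤ s.im ∧ s.im ≤ T) ∧ s ∈ U ε T}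

/-- the estimate for the area with exponent `a` -/
def AVal (a : ℝ → ℝ) : Prop := ∀ ε : ℝ, 0 < ε → ∃ C T₀ : ℝ, ∀ T : ℝ, T₀ ≤ T → ∀ σ : ℝ,
  1 / 2 ≤ σ → σ ≤ 1 → (volume (av ε σ T)).toReal ≤ C * T ^ (a σ + ε)

lemma U_subset (ε T : ℝ) : U ε T ⊆ E ε T := fun _ hs h => absurd h.2 (not_le.2 hs)

lemma hv_subset (ε σ T : ℝ) : hv ε σ T ⊆ dev ε σ T := fun _ ht => ⟨ht.1, U_subset ε T ht.2⟩

lemma hv_lt_top (ε σ T : ℝ) : volume (hv ε σ T) < ⊤ :=
  lt_of_le_of_lt (measure_mono (hv_subset ε σ T)) (dev_lt_top ε σ T)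

lemma hv_le_dev (ε σ T : ℝ) : (volume (hv ε σ T)).toReal ≤ (volume (dev ε σ T)).toReal :=
  ENNReal.toReal_mono (dev_lt_top ε σ T).ne (measure_mono (hv_subset ε σ T))

lemma av_subset (ε σ T : ℝ) : av ε σ T ⊆ area ε σ T := fun _ hs => ⟨hs.1, hs.2.1, U_subset ε T hs.2.2⟩

lemma av_lt_top (ε σ T : ℝ) : volume (av ε σ T) < ⊤ :=
  lt_of_le_of_lt (measure_mono (av_subset ε σ T)) (area_lt_top ε σ T)

/-- the set in the plane -/
def plv (ε σ T : ℝ) : Set (ℝ × ℝ) :=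
  {v : ℝ × ℝ | (σ ≤ v.1 ∧ v.1 ≤ 1) ∧ (0 ≤ v.2 ∧ v.2 ≤ T) ∧ Complex.measurableEquivRealProd.symm v ∈ U ε T}

lemma measurableSet_plv (ε σ T : ℝ) : MeasurableSet (plv ε σ T) := by
  have h1 : plv ε σ T = (Icc σ 1 ×ˢ Icc 0 T) ∩ (Complex.measurableEquivRealProd.symm ⁻¹' U ε T) := by
    ext v
    constructor
    · rintro ⟨h1, h2, h3⟩
      exact ⟨⟨h1, h2⟩, h3⟩
    · rintro ⟨⟨h1, h2⟩, h3⟩
      exact ⟨h1, h2, h3⟩
  rw [h1]
  exact (measurableSet_Icc.prod measurableSet_Icc).inter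
    (Complex.measurableEquivRealProd.symm.measurable (measurableSet_U ε T))

lemma av_eq (ε σ T : ℝ) : volume (av ε σ T) = volume (plv ε σ T) := by
  rw [← Complex.volume_preserving_equiv_real_prod.measure_preimage
    (measurableSet_plv ε σ T).nullMeasurableSet]
  congr 1

lemma av_le (ε σ T : ℝ) : volume (av ε σ T) = ∫⁻ x in Icc σ 1, volume (hv ε x T) := by
  rw [av_eq, Measure.volume_eq_prod, Measure.prod_apply (measurableSet_plv ε σ T),
    ← lintegral_indicator measurableSet_Icc]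
  refine lintegral_congr fun x => ?_
  by_cases hx : x ∈ Icc σ 1
  · rw [Set.indicator_of_mem hx]
    congr 1
    ext t
    constructor
    · rintro ⟨_, h2, h3⟩
      exact ⟨h2, h3⟩
    · rintro ⟨h2, h3⟩
      exact ⟨hx, h2, h3⟩
  · rw [Set.indicator_of_notMem hx]
    have : Prod.mk x ⁻¹' plv ε σ T = ∅ := by
      ext t
      constructor
      · rintro ⟨h1, _⟩
        exact absurd h1 hx
      · rintro ⟨⟩
    rw [this, measure_empty]

theorem dev_to_val {a : ℝ → ℝ} (h : LDev a) : LVal a := by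
  intro ε hε
  obtain ⟨C, T0, hC⟩ := h ε hε
  exact ⟨C, T0, fun T hT σ hσ hσ1 => (hv_le_dev ε σ T).trans (hC T hT σ hσ hσ1)⟩

theorem val_to_area (a : ℝ → ℝ) (hmono : AntitoneOn a (Icc (1 / 2) 1)) (h : LVal a) : AVal a := by
  intro ε hε
  obtain ⟨C, T0, hC⟩ := h ε hε
  refine ⟨|C|, max T0 1, fun T hT σ hσ hσ1 => ?_⟩
  have h1 : T0 ≤ T := (le_max_left _ _).trans hT
  have h2 : 1 ≤ T := (le_max_right _ _).trans hT
  have hp : 0 < T ^ (a σ + ε) := by positivity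
  apply ENNReal.toReal_le_of_le_ofReal (by positivity)
  rw [av_le]
  have h3 : ∀ x ∈ Icc σ 1, volume (hv ε x T) ≤ ENNReal.ofReal (|C| * T ^ (a σ + ε)) := by
    intro x hx
    rw [← ENNReal.ofReal_toReal (hv_lt_top ε x T).ne]
    apply ENNReal.ofReal_le_ofReal
    refine (hC T h1 x (hσ.trans hx.1) hx.2).trans ?_
    apply mul_le_mul (le_abs_self _) _ (by positivity) (abs_nonneg _)
    apply Real.rpow_le_rpow_of_exponent_le h2
    have := hmono ⟨hσ, hσ1⟩ ⟨hσ.trans hx.1, hx.2⟩ hx.1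
    linarith
  calc _ ≤ ∫⁻ x in Icc σ 1, ENNReal.ofReal (|C| * T ^ (a σ + ε)) :=
        setLIntegral_mono' measurableSet_Icc h3
    _ = ENNReal.ofReal (|C| * T ^ (a σ + ε)) * ENNReal.ofReal (1 - σ) := by
        rw [lintegral_const, Measure.restrict_apply_univ, Real.volume_Icc]
    _ ≤ ENNReal.ofReal (|C| * T ^ (a σ + ε)) * 1 := by
        gcongr
        rw [ENNReal.ofReal_le_one]
        linarith
    _ = _ := mul_one _

/-- the area of the large values near a large value -/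
theorem near_large {e r : ℝ} (he : 0 < e) (he1 : e ≤ 1) (hr : 0 < r) (hr1 : r ≤ 1 / 16) :
    ∃ T0 : ℝ, 3 ≤ T0 ∧ ∀ T : ℝ, T0 ≤ T → ∀ z : ℂ, 3 / 8 ≤ z.re → 4 ≤ z.im → z.im ≤ T - 1 →
      T ^ (2 * e) < ‖riemannZeta z‖ → ENNReal.ofReal (r ^ 2 * T ^ (-(2 * e))) ≤
        volume (Metric.ball z r ∩ U e T ∩ {s : ℂ | s.re ≤ 1}) := by
  obtain ⟨T1, hT13, h1⟩ := growth_one he he1
  obtain ⟨T2, -, h2⟩ := ev_small (show 0 < e * e by positivity) (Real.log 2)
  refine ⟨max (max T1 T2) 10, hT13.trans ((le_max_left _ _).trans (le_max_left _ _)), ?_⟩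
  intro T hT z hz1 him himT hbig
  have hTT1 : T1 ≤ T := ((le_max_left _ _).trans (le_max_left _ _)).trans hT
  have hTT2 : T2 ≤ T := ((le_max_right _ _).trans (le_max_left _ _)).trans hT
  have hT10 : 10 ≤ T := (le_max_right _ _).trans hT
  have hT0 : 0 < T := by linarith
  have hmono : T ^ e ≤ T ^ (2 * e) := Real.rpow_le_rpow_of_exponent_le (by linarith) (by linarith)
  have hz2 : z.re < 1 := by
    by_contra hcon
    have := h1 T hTT1 z (not_lt.1 hcon) (by linarith) (by linarith)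
    linarith
  obtain ⟨k1, k2, -⟩ := h2 T hTT2
  have h22 : 2 ≤ T ^ (e * e) := by
    rw [Real.rpow_def_of_pos hT0, ← Real.exp_log (show (0:ℝ) < 2 by norm_num)]
    apply Real.exp_le_exp.2
    linarith
  have hT6 : 6 * (T + 6) ≤ T ^ (2 : ℝ) := by
    rw [Real.rpow_two]
    nlinarith
  have hb := case_b he hr hr1 (by linarith) h22 hT6 (s1 := z) hz1 (by linarith) (by linarith)
    (by linarith) hbig
  refine hb.trans (measure_mono ?_)
  rintro s ⟨hs, hsb⟩
  have hs3 : T ^ e < ‖riemannZeta s‖ := hsb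
  refine ⟨⟨hs, hs3⟩, ?_⟩
  show s.re ≤ 1
  by_contra hcon
  rw [Metric.mem_ball, dist_eq_norm] at hs
  have g3 := abs_lt.1 ((Complex.abs_im_le_norm (s - z)).trans_lt hs)
  rw [Complex.sub_im] at g3
  have h5 := h1 T hTT1 s (not_le.1 hcon).le (by linarith [g3.1]) (by linarith [g3.2])
  linarith

/-- **Most zeros are close to large values.** -/
theorem dict_val {δ ε : ℝ} (hδ : 0 < δ) (hδ1 : δ ≤ 1 / 2) (hε : 0 < ε) :
    ∃ e C T0 : ℝ, 0 < e ∧ e ≤ ε ∧ 0 < C ∧ ∀ T : ℝ, T0 ≤ T → ∀ σ : ℝ, 1 / 2 + δ ≤ σ → σ ≤ 1 →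
      (N σ T : ℝ) ≤ C * (T ^ (2 * (1 - σ) + ε) +
        T ^ ε * (volume (av e (σ - δ) (T + 2))).toReal) := by
  classical
  set d : ℝ := min (δ / 2) (1 / 12) with hd
  have hd0 : 0 < d := lt_min (by positivity) (by norm_num)
  have hd1 : d ≤ 1 / 12 := min_le_right _ _
  have hdδ : d ≤ δ / 2 := min_le_left _ _
  set r : ℝ := min (δ / 2) (1 / 16) with hr
  have hr0 : 0 < r := lt_min (by positivity) (by norm_num)
  have hr1 : r ≤ 1 / 16 := min_le_right _ _
  have hrδ : r ≤ δ / 2 := min_le_left _ _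
  obtain ⟨η, hη, CA, hCA, TA, hA⟩ := DH31.count_a hd0 hd1 (show 0 < ε / 2 by positivity)
  set e : ℝ := min (min (η / 4) (ε / 8)) 1 with he
  have he0 : 0 < e := lt_min (lt_min (by positivity) (by positivity)) one_pos
  have he1 : e ≤ 1 := min_le_right _ _
  have heη : 4 * e ≤ η := by
    have : e ≤ η / 4 := (min_le_left _ _).trans (min_le_left _ _)
    linarith
  have heε : 8 * e ≤ ε := by
    have : e ≤ ε / 8 := (min_le_left _ _).trans (min_le_right _ _)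
    linarith
  obtain ⟨T1, -, h1⟩ := near_large he0 he1 hr0 hr1
  obtain ⟨C3, hC3, h3⟩ := DH31.windows_to_count
  obtain ⟨K, hK, h4⟩ := absorb (show 0 < ε / 2 by positivity)
  refine ⟨e, C3 + C3 * K * (7 + CA) + C3 * K * (3 / r ^ 2 * 3 ^ ε), max (max T1 TA) 3, he0,
    by linarith, by positivity, ?_⟩
  intro T hT σ hc hσ1
  have hTT1 : T1 ≤ T := ((le_max_left _ _).trans (le_max_left _ _)).trans hT
  have hTTA : TA ≤ T := ((le_max_right _ _).trans (le_max_left _ _)).trans hT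
  have hT3 : 3 ≤ T := (le_max_right _ _).trans hT
  have hT0 : 0 < T := by linarith
  have hT2 : 0 < T + 2 := by linarith
  have hσ : 1 / 2 ≤ σ := by linarith
  have hL0 : 0 ≤ Real.log T := Real.log_nonneg (by linarith)
  have e7 : Real.log T ≤ K * T ^ (ε / 2) := by
    have := h4 T (by linarith)
    linarith
  have hzsub : DH31.zeros σ T ⊆ DH31.zeros (1 / 2) T :=
    fun ρ hρ => ⟨hρ.1, hσ.trans hρ.2.1, hρ.2.2.1, hρ.2.2.2⟩
  have hKp : 0 < K := by linarith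
  have hr2 : 0 < r ^ 2 := by positivity
  -- the number of a window
  have hwin : ∀ ρ ∈ DH31.zeros σ T, (⌈ρ.im⌉₊ - 1) ∈ Finset.range (⌊T⌋₊ + 1) ∧
      (((⌈ρ.im⌉₊ - 1 : ℕ) : ℝ)) < ρ.im ∧ ρ.im ≤ ((⌈ρ.im⌉₊ - 1 : ℕ) : ℝ) + 1 := by
    intro ρ hρ
    have g1 : 0 < ⌈ρ.im⌉₊ := Nat.ceil_pos.2 hρ.2.2.1
    have g2 : ((⌈ρ.im⌉₊ - 1 : ℕ) : ℝ) = (⌈ρ.im⌉₊ : ℝ) - 1 := by
      rw [Nat.cast_sub (by omega)]
      simp
    have g3 := Nat.ceil_lt_add_one hρ.2.2.1.le
    have g4 := Nat.le_ceil ρ.im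
    refine ⟨?_, by rw [g2]; linarith, by rw [g2]; linarith⟩
    rw [Finset.mem_range]
    have g5 : ((⌈ρ.im⌉₊ - 1 : ℕ) : ℝ) ≤ T := by
      rw [g2]
      linarith [hρ.2.2.2]
    have := Nat.le_floor g5
    omega
  set P : ℕ → Prop := fun n => ∃ ρ ∈ DH31.zeros σ T, 6 ≤ ρ.im ∧ (n : ℝ) < ρ.im ∧ ρ.im ≤ n + 1 with hP
  set S1 : Finset ℕ := (Finset.range (⌊T⌋₊ + 1)).filter P with hS1
  have hex : ∀ n : ℕ, ∃ ρ : ℂ, n ∈ S1 → (ρ ∈ DH31.zeros σ T ∧ 6 ≤ ρ.im ∧ (n : ℝ) < ρ.im ∧ ρ.im ≤ n + 1) := by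
    intro n
    by_cases hn : n ∈ S1
    · rw [hS1, Finset.mem_filter] at hn
      obtain ⟨_, ρ, k1, k2⟩ := hn
      exact ⟨ρ, fun _ => ⟨k1, k2⟩⟩
    · exact ⟨0, fun h => absurd h hn⟩
  choose f hf using hex
  have hfre : ∀ n ∈ S1, (f n).re < 1 := by
    intro n hn
    by_contra hcon
    exact riemannZeta_ne_zero_of_one_le_re (not_lt.1 hcon) (hf n hn).1.1
  set Q : ℕ → Prop := fun n => ∀ z ∈ Metric.closedBall (⟨1 + d, (f n).im⟩ : ℂ) (1 + d - (f n).re + d),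
    ‖riemannZeta z‖ ≤ T ^ η with hQ
  set SA := S1.filter Q with hSA
  set SB := S1.filter (fun n => ¬ Q n) with hSB
  have hcardA : (SA.card : ℝ) ≤ CA * T ^ (2 * (1 - σ) + ε / 2) := by
    refine hA T hTTA σ hσ hσ1 SA f fun n hn => ?_
    rw [hSA, Finset.mem_filter] at hn
    obtain ⟨k1, k2, k3, k4⟩ := hf n hn.1
    exact ⟨k1.1, by linarith, k1.2.2.2, k1.2.1, (hfre n hn.1).le, ⟨k3.le, k4⟩, hn.2⟩
  -- the windows with large values
  have hexz : ∀ n : ℕ, ∃ z : ℂ, n ∈ SB → (σ - d ≤ z.re ∧ |z.im - (f n).im| ≤ 2 / 3 ∧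
      T ^ η < ‖riemannZeta z‖) := by
    intro n
    by_cases hn : n ∈ SB
    · have hn' := hn
      rw [hSB, Finset.mem_filter] at hn'
      obtain ⟨k1, k2, k3, k4⟩ := hf n hn'.1
      have hq := hn'.2
      rw [hQ] at hq
      simp only at hq
      push Not at hq
      obtain ⟨z, hz, hzb⟩ := hq
      have g := center_re_im hz
      refine ⟨z, fun _ => ⟨by linarith [g.1, k1.2.1], ?_, hzb⟩⟩
      refine g.2.2.trans ?_
      linarith [k1.2.1]
    · exact ⟨0, fun h => absurd h hn⟩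
  choose w hw using hexz
  set G : ℕ → Set ℂ := fun n => Metric.ball (w n) r ∩ U e (T + 2) ∩ {s : ℂ | s.re ≤ 1} with hG
  have hGm : ∀ n, MeasurableSet (G n) := fun n =>
    (measurableSet_ball.inter (measurableSet_U _ _)).inter
      (measurableSet_le Complex.measurable_re measurable_const)
  have hwim : ∀ n ∈ SB, (n : ℝ) - 2 / 3 < (w n).im ∧ (w n).im ≤ n + 5 / 3 ∧ 5 ≤ (w n).im ∧
      (w n).im ≤ T + 1 := by
    intro n hn
    have hn' := hn
    rw [hSB, Finset.mem_filter] at hn'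
    obtain ⟨k1, k2, k3, k4⟩ := hf n hn'.1
    have g := abs_le.1 (hw n hn).2.1
    exact ⟨by linarith [g.1], by linarith [g.2], by linarith [g.1], by linarith [g.2, k1.2.2.2]⟩
  have hTe : (T + 2) ^ (2 * e) ≤ T ^ η := by
    calc (T + 2) ^ (2 * e) ≤ (T * T) ^ (2 * e) :=
          Real.rpow_le_rpow hT2.le (by nlinarith) (by positivity)
      _ = T ^ (4 * e) := by
          rw [Real.mul_rpow hT0.le hT0.le, ← Real.rpow_add hT0]
          congr 1
          ring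
      _ ≤ _ := Real.rpow_le_rpow_of_exponent_le (by linarith) heη
  have hGim : ∀ n ∈ SB, ∀ s ∈ G n, (n : ℝ) - 1 < s.im ∧ s.im < n + 2 := by
    intro n hn s hs
    have hs1 : dist s (w n) < r := hs.1.1
    rw [dist_eq_norm] at hs1
    have g := abs_lt.1 ((Complex.abs_im_le_norm _).trans_lt hs1)
    rw [Complex.sub_im] at g
    obtain ⟨u1, u2, -, -⟩ := hwim n hn
    exact ⟨by linarith [g.1], by linarith [g.2]⟩
  have hGv : ∀ n ∈ SB, ENNReal.ofReal (r ^ 2 * (T + 2) ^ (-(2 * e))) ≤ volume (G n) := by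
    intro n hn
    obtain ⟨u1, u2, u3, u4⟩ := hwim n hn
    exact h1 (T + 2) (by linarith) (w n) (by linarith [(hw n hn).1]) (by linarith) (by linarith)
      (lt_of_le_of_lt hTe (hw n hn).2.2)
  have hGB : ∀ n ∈ SB, G n ⊆ av e (σ - δ) (T + 2) := by
    intro n hn s hs
    obtain ⟨u1, u2, u3, u4⟩ := hwim n hn
    have hs1 : dist s (w n) < r := hs.1.1
    rw [dist_eq_norm] at hs1
    have g1 := abs_lt.1 ((Complex.abs_re_le_norm _).trans_lt hs1)
    have g2 := abs_lt.1 ((Complex.abs_im_le_norm _).trans_lt hs1)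
    rw [Complex.sub_re] at g1
    rw [Complex.sub_im] at g2
    exact ⟨⟨by linarith [g1.1, (hw n hn).1], hs.2⟩, ⟨by linarith [g2.1], by linarith [g2.2]⟩, hs.1.2⟩
  set V := (volume (av e (σ - δ) (T + 2))).toReal with hV
  have hV0 : 0 ≤ V := ENNReal.toReal_nonneg
  set q := r ^ 2 * (T + 2) ^ (-(2 * e)) with hq
  have hq0 : 0 < q := by positivity
  have hpar : ∀ j : ℕ, ((SB.filter (fun n => n % 3 = j)).card : ℝ) * q ≤ V := by
    intro j
    have k := card_mul_vol (S := SB.filter (fun n => n % 3 = j)) (G := G)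
      (B := av e (σ - δ) (T + 2)) (v := ENNReal.ofReal q) (fun n _ => hGm n) (by
        intro m hm n hn hmn
        rw [Finset.mem_filter] at hm hn
        rw [Set.disjoint_left]
        intro s hsm hsn
        have u1 := hGim m hm.1 s hsm
        have u2 := hGim n hn.1 s hsn
        have u3 : (m : ℝ) < n + 3 := by linarith [u1.1, u2.2]
        have u4 : (n : ℝ) < m + 3 := by linarith [u1.2, u2.1]
        have u5 : m < n + 3 := by exact_mod_cast u3
        have u6 : n < m + 3 := by exact_mod_cast u4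
        have u7 := hm.2
        have u8 := hn.2
        omega) (fun n hn => hGv n (Finset.mem_filter.1 hn).1)
        (fun n hn => hGB n (Finset.mem_filter.1 hn).1)
    have k2 := ENNReal.toReal_mono (av_lt_top _ _ _).ne k
    rwa [ENNReal.toReal_mul, ENNReal.toReal_natCast, ENNReal.toReal_ofReal hq0.le] at k2
  have hcardB : (SB.card : ℝ) * q ≤ 3 * V := by
    have k1 : SB ⊆ SB.filter (fun n => n % 3 = 0) ∪ (SB.filter (fun n => n % 3 = 1) ∪
        SB.filter (fun n => n % 3 = 2)) := by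
      intro n hn
      simp only [Finset.mem_union, Finset.mem_filter]
      have : n % 3 = 0 ∨ n % 3 = 1 ∨ n % 3 = 2 := by omega
      rcases this with h | h | h
      · exact Or.inl ⟨hn, h⟩
      · exact Or.inr (Or.inl ⟨hn, h⟩)
      · exact Or.inr (Or.inr ⟨hn, h⟩)
    have k2 : (SB.card : ℝ) ≤ (SB.filter (fun n => n % 3 = 0)).card +
        ((SB.filter (fun n => n % 3 = 1)).card + (SB.filter (fun n => n % 3 = 2)).card) := by
      have j1 := Finset.card_le_card k1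
      have j2 := Finset.card_union_le (SB.filter (fun n => n % 3 = 0))
        (SB.filter (fun n => n % 3 = 1) ∪ SB.filter (fun n => n % 3 = 2))
      have j3 := Finset.card_union_le (SB.filter (fun n => n % 3 = 1)) (SB.filter (fun n => n % 3 = 2))
      have j4 : SB.card ≤ (SB.filter (fun n => n % 3 = 0)).card +
        ((SB.filter (fun n => n % 3 = 1)).card + (SB.filter (fun n => n % 3 = 2)).card) := by omega
      exact_mod_cast j4
    have k3 := hpar 0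
    have k4 := hpar 1
    have k5 := hpar 2
    nlinarith
  have hcardS : (S1.card : ℝ) = SA.card + SB.card := by
    have := Finset.card_filter_add_card_filter_not (s := S1) Q
    rw [hSA, hSB]
    exact_mod_cast this.symm
  have e6 : (SB.card : ℝ) ≤ 3 / r ^ 2 * 3 ^ ε * T ^ (ε / 2) * V := by
    have i1 : (T + 2) ^ (-(2 * e)) * (T + 2) ^ (2 * e) = 1 := by
      rw [← Real.rpow_add hT2]
      simp
    have i2 : (SB.card : ℝ) * r ^ 2 ≤ 3 * V * (T + 2) ^ (2 * e) := by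
      calc (SB.card : ℝ) * r ^ 2 = (SB.card : ℝ) * r ^ 2 * ((T + 2) ^ (-(2 * e)) * (T + 2) ^ (2 * e)) := by
            rw [i1, mul_one]
        _ = (SB.card : ℝ) * q * (T + 2) ^ (2 * e) := by rw [hq]; ring
        _ ≤ 3 * V * (T + 2) ^ (2 * e) := mul_le_mul_of_nonneg_right hcardB (by positivity)
    have i3 : (T + 2) ^ (2 * e) ≤ 3 ^ ε * T ^ (ε / 2) := by
      calc (T + 2) ^ (2 * e) ≤ (3 * T) ^ (2 * e) :=
            Real.rpow_le_rpow (by linarith) (by linarith) (by positivity)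
        _ = 3 ^ (2 * e) * T ^ (2 * e) := Real.mul_rpow (by norm_num) hT0.le
        _ ≤ _ := by
            gcongr
            · norm_num
            · linarith
            · linarith
            · linarith
    calc (SB.card : ℝ) = (SB.card : ℝ) * r ^ 2 * (1 / r ^ 2) := by field_simp
      _ ≤ 3 * V * (3 ^ ε * T ^ (ε / 2)) * (1 / r ^ 2) := by
          apply mul_le_mul_of_nonneg_right _ (by positivity)
          exact i2.trans (mul_le_mul_of_nonneg_left i3 (by positivity))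
      _ = _ := by ring
  have e8 := h3 T hT3 (DH31.zeros σ T) hzsub (Finset.range 7 ∪ S1) (fun ρ hρ _ => by
    obtain ⟨g1, g2, g3⟩ := hwin ρ hρ
    refine ⟨_, ?_, g2, g3⟩
    rw [Finset.mem_union]
    rcases lt_or_ge ρ.im 6 with h6 | h6
    · left
      rw [Finset.mem_range]
      have : ((⌈ρ.im⌉₊ - 1 : ℕ) : ℝ) < (7 : ℕ) := by
        push_cast
        linarith
      exact_mod_cast this
    · right
      rw [hS1, Finset.mem_filter]
      exact ⟨g1, ρ, hρ, h6, g2, g3⟩)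
  have e9 : ((Finset.range 7 ∪ S1).card : ℝ) ≤ 7 + S1.card := by
    have := Finset.card_union_le (Finset.range 7) S1
    rw [Finset.card_range] at this
    exact_mod_cast this
  obtain ⟨X, hX⟩ : ∃ X : ℝ, X = T ^ (2 * (1 - σ) + ε) := ⟨_, rfl⟩
  have hX1 : 1 ≤ X := by
    rw [hX]
    exact Real.one_le_rpow (by linarith) (by linarith)
  have i1 : T ^ (ε / 2) ≤ X := by
    rw [hX]
    exact Real.rpow_le_rpow_of_exponent_le (by linarith) (by linarith)
  have i2 : T ^ (2 * (1 - σ) + ε / 2) * T ^ (ε / 2) = X := by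
    rw [hX, ← Real.rpow_add hT0]
    congr 1
    ring
  have i3 : T ^ (ε / 2) * T ^ (ε / 2) = T ^ ε := by
    rw [← Real.rpow_add hT0]
    congr 1
    ring
  set W := 3 / r ^ 2 * 3 ^ ε with hW
  have hW0 : 0 ≤ W := by positivity
  rw [← hX]
  calc (N σ T : ℝ) ≤ C3 + ((Finset.range 7 ∪ S1).card : ℝ) * (C3 * Real.log T) := e8
    _ ≤ C3 + (7 + CA * T ^ (2 * (1 - σ) + ε / 2) + W * T ^ (ε / 2) * V) * (C3 * (K * T ^ (ε / 2))) := by
        have j1 : ((Finset.range 7 ∪ S1).card : ℝ) ≤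
          7 + CA * T ^ (2 * (1 - σ) + ε / 2) + W * T ^ (ε / 2) * V := by linarith
        gcongr
    _ = C3 * 1 + C3 * K * 7 * T ^ (ε / 2) + C3 * K * CA * (T ^ (2 * (1 - σ) + ε / 2) * T ^ (ε / 2)) +
        C3 * K * W * V * (T ^ (ε / 2) * T ^ (ε / 2)) := by ring
    _ ≤ C3 * X + C3 * K * 7 * X + C3 * K * CA * X + C3 * K * W * V * T ^ ε := by
        rw [i2, i3]
        gcongr
    _ ≤ _ := by
        have k1 : 0 ≤ (C3 + C3 * K * (7 + CA)) * (T ^ ε * V) := by positivity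
        have k2 : 0 ≤ C3 * K * W * X := by positivity
        nlinarith

theorem area_to_dens' (a : ℝ → ℝ) (ha : ContinuousOn a (Icc (1 / 2) 1))
    (ha2 : ∀ σ ∈ Icc (1 / 2 : ℝ) 1, 2 * (1 - σ) ≤ a σ) (h : AVal a) : Dens a := by
  classical
  intro ε hε
  have huc := isCompact_Icc.uniformContinuousOn_of_continuous ha
  rw [Metric.uniformContinuousOn_iff] at huc
  obtain ⟨δ0, hδ0, hδ2⟩ := huc (ε / 8) (by linarith)
  obtain ⟨M, hM⟩ := isCompact_Icc.exists_bound_of_continuousOn ha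
  have hM' : ∀ σ ∈ Icc (1 / 2 : ℝ) 1, a σ ≤ M := fun σ hσ => (le_abs_self _).trans (hM σ hσ)
  have hM0 : 0 ≤ M := (norm_nonneg _).trans (hM (1 / 2) (by constructor <;> norm_num))
  have ha1 : 1 ≤ a (1 / 2) := by
    have := ha2 (1 / 2) ⟨le_rfl, by norm_num⟩
    linarith
  set δ : ℝ := min (δ0 / 2) (1 / 2) with hδdef
  have hδ : 0 < δ := lt_min (by positivity) (by norm_num)
  have hδ1 : δ ≤ 1 / 2 := min_le_right _ _
  have hδδ : δ < δ0 := by
    have : δ ≤ δ0 / 2 := min_le_left _ _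
    linarith
  obtain ⟨e, C1, T1, he0, heε, hC1, h1⟩ := dict_val hδ hδ1 (show 0 < ε / 4 by positivity)
  obtain ⟨C2, T2, h2⟩ := h e he0
  obtain ⟨C3, hC3, h3⟩ := DH31.windows_to_count
  obtain ⟨K, hK, h4⟩ := absorb (show 0 < ε / 2 by positivity)
  refine ⟨C3 + C3 * K * 2 + C1 * (1 + |C2| * 3 ^ (M + ε)), max (max T1 T2) 3, ?_⟩
  intro T hT σ hσ hσ1
  have hTT1 : T1 ≤ T := ((le_max_left _ _).trans (le_max_left _ _)).trans hT
  have hTT2 : T2 ≤ T := ((le_max_right _ _).trans (le_max_left _ _)).trans hT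
  have hT3 : 3 ≤ T := (le_max_right _ _).trans hT
  have hT0 : 0 < T := by linarith
  have hT2 : 0 < T + 2 := by linarith
  have hσI : σ ∈ Icc (1 / 2 : ℝ) 1 := ⟨hσ, hσ1⟩
  have haσ : 2 * (1 - σ) ≤ a σ := ha2 σ hσI
  have haσ0 : 0 ≤ a σ := by linarith
  have hL0 : 0 ≤ Real.log T := Real.log_nonneg (by linarith)
  have hone : 1 ≤ T ^ (a σ + ε) := Real.one_le_rpow (by linarith) (by linarith)
  have hKp : 0 < K := by linarith
  rcases lt_or_ge σ (1 / 2 + δ) with hc | hc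
  · have e7 : Real.log T ≤ K * T ^ (ε / 2) := by
      have := h4 T (by linarith)
      linarith
    have hzsub : DH31.zeros σ T ⊆ DH31.zeros (1 / 2) T :=
      fun ρ hρ => ⟨hρ.1, hσ.trans hρ.2.1, hρ.2.2.1, hρ.2.2.2⟩
    have hwin : ∀ ρ ∈ DH31.zeros σ T, (⌈ρ.im⌉₊ - 1) ∈ Finset.range (⌊T⌋₊ + 1) ∧
        (((⌈ρ.im⌉₊ - 1 : ℕ) : ℝ)) < ρ.im ∧ ρ.im ≤ ((⌈ρ.im⌉₊ - 1 : ℕ) : ℝ) + 1 := by
      intro ρ hρ
      have g1 : 0 < ⌈ρ.im⌉₊ := Nat.ceil_pos.2 hρ.2.2.1
      have g2 : ((⌈ρ.im⌉₊ - 1 : ℕ) : ℝ) = (⌈ρ.im⌉₊ : ℝ) - 1 := by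
        rw [Nat.cast_sub (by omega)]
        simp
      have g3 := Nat.ceil_lt_add_one hρ.2.2.1.le
      have g4 := Nat.le_ceil ρ.im
      refine ⟨?_, by rw [g2]; linarith, by rw [g2]; linarith⟩
      rw [Finset.mem_range]
      have g5 : ((⌈ρ.im⌉₊ - 1 : ℕ) : ℝ) ≤ T := by
        rw [g2]
        linarith [hρ.2.2.2]
      have := Nat.le_floor g5
      omega
    have e4 : dist (a σ) (a (1 / 2)) < ε / 8 := by
      apply hδ2 σ hσI (1 / 2) ⟨le_rfl, by norm_num⟩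
      rw [Real.dist_eq, abs_of_nonneg (by linarith)]
      linarith
    rw [Real.dist_eq] at e4
    have e5 := (abs_lt.1 e4).1
    have e6 := h3 T hT3 (DH31.zeros σ T) hzsub (Finset.range (⌊T⌋₊ + 1)) (fun ρ hρ _ =>
      ⟨_, (hwin ρ hρ).1, (hwin ρ hρ).2⟩)
    rw [Finset.card_range] at e6
    have e8 : ((⌊T⌋₊ + 1 : ℕ) : ℝ) ≤ 2 * T := by
      push_cast
      have := Nat.floor_le hT0.le
      linarith
    have e9 : T * T ^ (ε / 2) ≤ T ^ (a σ + ε) := by
      have : T * T ^ (ε / 2) = T ^ (1 + ε / 2) := by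
        rw [Real.rpow_add hT0, Real.rpow_one]
      rw [this]
      exact Real.rpow_le_rpow_of_exponent_le (by linarith) (by linarith)
    calc (N σ T : ℝ) ≤ C3 + ((⌊T⌋₊ + 1 : ℕ) : ℝ) * (C3 * Real.log T) := e6
      _ ≤ C3 + (2 * T) * (C3 * (K * T ^ (ε / 2))) := by gcongr
      _ = C3 * 1 + C3 * K * 2 * (T * T ^ (ε / 2)) := by ring
      _ ≤ C3 * T ^ (a σ + ε) + C3 * K * 2 * T ^ (a σ + ε) := by gcongr
      _ ≤ _ := by
          have : 0 ≤ C1 * (1 + |C2| * 3 ^ (M + ε)) * T ^ (a σ + ε) := by positivity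
          linarith
  · have hσ' : σ - δ ∈ Icc (1 / 2 : ℝ) 1 := ⟨by linarith, by linarith⟩
    have k1 := h1 T hTT1 σ hc hσ1
    have k2 := h2 (T + 2) (by linarith) (σ - δ) hσ'.1 hσ'.2
    have e4 : dist (a (σ - δ)) (a σ) < ε / 8 := by
      apply hδ2 _ hσ' σ hσI
      rw [Real.dist_eq, abs_sub_comm, abs_of_nonneg (by linarith)]
      linarith
    rw [Real.dist_eq] at e4
    have e5 := (abs_lt.1 e4).2
    have k3 : (volume (av e (σ - δ) (T + 2))).toReal ≤ |C2| * 3 ^ (M + ε) * T ^ (a σ + ε / 2) := by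
      calc _ ≤ C2 * (T + 2) ^ (a (σ - δ) + e) := k2
        _ ≤ |C2| * (T + 2) ^ (a σ + ε / 2) := by
            apply mul_le_mul (le_abs_self _) _ (by positivity) (abs_nonneg _)
            exact Real.rpow_le_rpow_of_exponent_le (by linarith) (by linarith)
        _ ≤ |C2| * (3 * T) ^ (a σ + ε / 2) := by
            apply mul_le_mul_of_nonneg_left _ (abs_nonneg _)
            exact Real.rpow_le_rpow (by linarith) (by linarith) (by linarith)
        _ = |C2| * (3 ^ (a σ + ε / 2) * T ^ (a σ + ε / 2)) := by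
            rw [Real.mul_rpow (by norm_num) hT0.le]
        _ ≤ |C2| * (3 ^ (M + ε) * T ^ (a σ + ε / 2)) := by
            gcongr
            · norm_num
            · exact hM' σ hσI
            · linarith
        _ = _ := by ring
    have k4 : T ^ (2 * (1 - σ) + ε / 4) ≤ T ^ (a σ + ε) :=
      Real.rpow_le_rpow_of_exponent_le (by linarith) (by linarith)
    have k5 : T ^ (ε / 4) * T ^ (a σ + ε / 2) ≤ T ^ (a σ + ε) := by
      rw [← Real.rpow_add hT0]
      exact Real.rpow_le_rpow_of_exponent_le (by linarith) (by linarith)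
    have hB : 0 ≤ |C2| * 3 ^ (M + ε) := by positivity
    calc (N σ T : ℝ) ≤ C1 * (T ^ (2 * (1 - σ) + ε / 4) +
          T ^ (ε / 4) * (volume (av e (σ - δ) (T + 2))).toReal) := k1
      _ ≤ C1 * (T ^ (a σ + ε) + T ^ (ε / 4) * (|C2| * 3 ^ (M + ε) * T ^ (a σ + ε / 2))) := by
          gcongr
      _ = C1 * (T ^ (a σ + ε) + |C2| * 3 ^ (M + ε) * (T ^ (ε / 4) * T ^ (a σ + ε / 2))) := by ring
      _ ≤ C1 * (T ^ (a σ + ε) + |C2| * 3 ^ (M + ε) * T ^ (a σ + ε)) := by gcongr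
      _ = C1 * (1 + |C2| * 3 ^ (M + ε)) * T ^ (a σ + ε) := by ring
      _ ≤ _ := by
          have : 0 ≤ (C3 + C3 * K * 2) * T ^ (a σ + ε) := by positivity
          linarith

end

end Pool.Agent.R305.LD
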