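import Pool.Agent.R305.LD.G
set_option autoImplicit false
set_option maxHeartbeats 1000000

/-!
Large values of zeta on half-lines.
-/

open Complex Filter Topology MeasureTheory Set

namespace Pool.Agent.R305.LD

open Pool.Agent.R305.MV

noncomputable section

/-- the heights at which zeta has a large value to the right of `σ` -/
def hs (ε σ T : ℝ) : Set ℝ := {t : ℝ | (0 ≤ t ∧ t ≤ T) ∧ ∃ x : ℝ, σ ≤ x ∧ (⟨x, t⟩ : ℂ) ∈ U ε T}

/-- the large value estimate on half-lines with exponent `a` -/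
def SVal (a : ℝ → ℝ) : Prop := ∀ ε : ℝ, 0 < ε → ∃ C T₀ : ℝ, ∀ T : ℝ, T₀ ≤ T → ∀ σ : ℝ,
  1 / 2 ≤ σ → σ ≤ 1 → (volume (hs ε σ T)).toReal ≤ C * T ^ (a σ + ε)

lemma hs_subset (ε σ T : ℝ) : hs ε σ T ⊆ Icc 0 T := fun _ ht => ht.1

lemma hs_le (ε σ : ℝ) {T : ℝ} (hT : 0 ≤ T) : (volume (hs ε σ T)).toReal ≤ T := by
  have h := measure_mono (μ := volume) (hs_subset ε σ T)
  rw [Real.volume_Icc, sub_zero] at h
  exact ENNReal.toReal_le_of_le_ofReal hT h

lemma hs_lt_top (ε σ T : ℝ) : volume (hs ε σ T) < ⊤ :=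
  lt_of_le_of_lt (measure_mono (hs_subset ε σ T)) (by rw [Real.volume_Icc]; exact ENNReal.ofReal_lt_top)

lemma hv_le_hs (ε σ T : ℝ) : (volume (hv ε σ T)).toReal ≤ (volume (hs ε σ T)).toReal :=
  ENNReal.toReal_mono (hs_lt_top ε σ T).ne (measure_mono fun _ ht => ⟨ht.1, σ, le_rfl, ht.2⟩)

/-- the measure of the large values on half-lines is bounded by the number of zeros -/
theorem dict_hs {δ ε : ℝ} (hδ : 0 < δ) (hδ1 : δ ≤ 1 / 4) (hε : 0 < ε) :
    ∃ T0 : ℝ, ∀ T : ℝ, T0 ≤ T → ∀ σ : ℝ, 1 / 2 + δ ≤ σ → σ ≤ 1 →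
      (volume (hs ε σ T)).toReal ≤ 4 + 4 * N (σ - δ) (T + 2) := by
  obtain ⟨T1, hT13, h1⟩ := zeta_both hδ hδ1 hε
  obtain ⟨T2, hT23, h2⟩ := growth_one (κ := min ε 1) (lt_min hε one_pos) (min_le_right _ _)
  refine ⟨max T1 T2, fun T hT σ hσ hσ1 => ?_⟩
  have hTT1 : T1 ≤ T := (le_max_left _ _).trans hT
  have hTT2 : T2 ≤ T := (le_max_right _ _).trans hT
  have hT3 : 3 ≤ T := hT13.trans hTT1
  set Zf := (DH31.zeros_finite (σ - δ) (T + 2)).toFinset with hZf
  have hsub : hs ε σ T ⊆ Icc 0 4 ∪ ⋃ ρ ∈ Zf, Icc (ρ.im - 2) (ρ.im + 2) := by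
    intro t ht
    obtain ⟨⟨ht0, htT⟩, x, hx, hu⟩ := ht
    have hu' : T ^ ε < ‖riemannZeta (⟨x, t⟩ : ℂ)‖ := hu
    rcases le_or_gt t 4 with htL | htL
    · exact Or.inl ⟨ht0, htL⟩
    · right
      by_contra hcon
      rcases le_or_gt 1 x with hx1 | hx1
      · have h3 := h2 T hTT2 (⟨x, t⟩ : ℂ) hx1 (by simp only; linarith) htT
        have h4 : T ^ (min ε 1) ≤ T ^ ε :=
          Real.rpow_le_rpow_of_exponent_le (by linarith) (min_le_left _ _)
        linarith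
      · have hfree : ∀ ρ : ℂ, riemannZeta ρ = 0 → σ - δ < ρ.re → 2 ≤ |ρ.im - (⟨x, t⟩ : ℂ).im| := by
          intro ρ hρ hρσ
          by_contra hlt
          push Not at hlt
          apply hcon
          have h4 := abs_lt.1 hlt
          simp only at h4
          simp only [Set.mem_iUnion]
          refine ⟨ρ, ?_, ⟨by linarith [h4.2], by linarith [h4.1]⟩⟩
          rw [hZf, Set.Finite.mem_toFinset]
          exact ⟨hρ, hρσ.le, by linarith [h4.1], by linarith [h4.2]⟩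
        have h5 := (h1 T hTT1 σ hσ hσ1 ⟨x, t⟩ hx (by simp only; linarith)
          (by simp only; linarith) htT hfree).2
        linarith
  have hvol : volume (hs ε σ T) ≤ ENNReal.ofReal (4 + Zf.card * (2 * 2)) := by
    refine (measure_mono hsub).trans ((measure_union_le _ _).trans ?_)
    rw [ENNReal.ofReal_add (by norm_num) (by positivity)]
    refine add_le_add ?_ vol_union_le
    rw [Real.volume_Icc, sub_zero]
  have hvol2 := ENNReal.toReal_le_of_le_ofReal (by positivity) hvol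
  have e2 : (Zf.card : ℝ) ≤ N (σ - δ) (T + 2) := by exact_mod_cast card_zeros_le _ _
  linarith

theorem dens_to_hs (a : ℝ → ℝ) (ha : ContinuousOn a (Icc (1 / 2) 1)) (ha1 : 1 ≤ a (1 / 2))
    (ha0 : ∀ σ ∈ Icc (1 / 2 : ℝ) 1, 0 ≤ a σ) (h : Dens a) : SVal a := by
  intro ε hε
  have huc := isCompact_Icc.uniformContinuousOn_of_continuous ha
  rw [Metric.uniformContinuousOn_iff] at huc
  obtain ⟨δ0, hδ0, hδ2⟩ := huc (ε / 8) (by linarith)
  obtain ⟨M, hM⟩ := isCompact_Icc.exists_bound_of_continuousOn ha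
  have hM' : ∀ σ ∈ Icc (1 / 2 : ℝ) 1, a σ ≤ M := fun σ hσ => (le_abs_self _).trans (hM σ hσ)
  have hM0 : 0 ≤ M := (norm_nonneg _).trans (hM (1 / 2) (by constructor <;> norm_num))
  set δ : ℝ := min (δ0 / 4) (1 / 8) with hδdef
  have hδ : 0 < δ := lt_min (by positivity) (by norm_num)
  have hδ1 : δ ≤ 1 / 4 := (min_le_right _ _).trans (by norm_num)
  have hδδ : 2 * δ < δ0 := by
    have : δ ≤ δ0 / 4 := min_le_left _ _
    linarith
  obtain ⟨T1, h1⟩ := dict_hs hδ hδ1 hε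
  obtain ⟨C2, T2, h2⟩ := h (ε / 8) (by linarith)
  refine ⟨4 + 4 * (|C2| * 3 ^ (M + ε)), max (max T1 T2) 3, ?_⟩
  intro T hT σ hσ hσ1
  have hTT1 : T1 ≤ T := ((le_max_left _ _).trans (le_max_left _ _)).trans hT
  have hTT2 : T2 ≤ T := ((le_max_right _ _).trans (le_max_left _ _)).trans hT
  have hT3 : 3 ≤ T := (le_max_right _ _).trans hT
  have hT0 : 0 < T := by linarith
  have hσI : σ ∈ Icc (1 / 2 : ℝ) 1 := ⟨hσ, hσ1⟩
  have haσ := ha0 σ hσI
  have hp0 : 0 < T ^ (a σ + ε) := by positivity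
  have hB : 0 ≤ |C2| * 3 ^ (M + ε) := by positivity
  rcases lt_or_ge σ (1 / 2 + 2 * δ) with hc | hc
  · have e4 : dist (a σ) (a (1 / 2)) < ε / 8 := by
      apply hδ2 σ hσI (1 / 2) ⟨le_rfl, by norm_num⟩
      rw [Real.dist_eq, abs_of_nonneg (by linarith)]
      linarith
    rw [Real.dist_eq] at e4
    have e5 := (abs_lt.1 e4).1
    have e6 : T ≤ T ^ (a σ + ε) := by
      calc T = T ^ (1 : ℝ) := (Real.rpow_one T).symm
        _ ≤ _ := Real.rpow_le_rpow_of_exponent_le (by linarith) (by linarith)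
    calc _ ≤ T := hs_le ε σ hT0.le
      _ ≤ 1 * T ^ (a σ + ε) := by rw [one_mul]; exact e6
      _ ≤ _ := by gcongr; linarith
  · have hσ' : σ - δ ∈ Icc (1 / 2 : ℝ) 1 := ⟨by linarith, by linarith⟩
    have k1 := h1 T hTT1 σ (by linarith) hσ1
    have e1 : (N (σ - δ) (T + 2) : ℝ) ≤ |C2| * 3 ^ (M + ε) * T ^ (a σ + ε) := by
      have e3 := h2 (T + 2) (by linarith) (σ - δ) hσ'.1 hσ'.2
      have e4 : dist (a (σ - δ)) (a σ) < ε / 8 := by
        apply hδ2 _ hσ' σ hσI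
        rw [Real.dist_eq, abs_sub_comm, abs_of_nonneg (by linarith)]
        linarith
      rw [Real.dist_eq] at e4
      have e6 := (abs_lt.1 e4).2
      calc (N (σ - δ) (T + 2) : ℝ) ≤ C2 * (T + 2) ^ (a (σ - δ) + ε / 8) := e3
        _ ≤ |C2| * (T + 2) ^ (a σ + ε) := by
            apply mul_le_mul (le_abs_self _) _ (by positivity) (abs_nonneg _)
            exact Real.rpow_le_rpow_of_exponent_le (by linarith) (by linarith)
        _ ≤ |C2| * (3 * T) ^ (a σ + ε) := by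
            apply mul_le_mul_of_nonneg_left _ (abs_nonneg _)
            exact Real.rpow_le_rpow (by linarith) (by linarith) (by linarith)
        _ = |C2| * (3 ^ (a σ + ε) * T ^ (a σ + ε)) := by
            rw [Real.mul_rpow (by norm_num) hT0.le]
        _ ≤ |C2| * (3 ^ (M + ε) * T ^ (a σ + ε)) := by
            gcongr
            · norm_num
            · exact hM' σ hσI
        _ = _ := by ring
    have hone : 1 ≤ T ^ (a σ + ε) := Real.one_le_rpow (by linarith) (by linarith)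
    calc (volume (hs ε σ T)).toReal ≤ 4 + 4 * N (σ - δ) (T + 2) := k1
      _ ≤ 4 * T ^ (a σ + ε) + 4 * (|C2| * 3 ^ (M + ε) * T ^ (a σ + ε)) := by
          gcongr
          linarith
      _ = _ := by ring

theorem hs_to_val {a : ℝ → ℝ} (h : SVal a) : LVal a := by
  intro ε hε
  obtain ⟨C, T0, hC⟩ := h ε hε
  exact ⟨C, T0, fun T hT σ hσ hσ1 => (hv_le_hs ε σ T).trans (hC T hT σ hσ hσ1)⟩

end

end Pool.Agent.R305.LD
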